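import Mathlib

set_option autoImplicit false
set_option linter.style.haveILetI false

open Filter Topology

namespace Pool.Agent.W5h53.OB

/-- the Cantor space -/
abbrev K : Type := ℕ → Bool

/-- a locally constant function depends on finitely many coordinates -/
theorem fin_dep {T : Type*} (f : K → T) (hf : IsLocallyConstant f) :
    ∃ n : ℕ, ∀ x y : K, (∀ i < n, x i = y i) → f x = f y := by
  have h1 : ∀ x : K, ∃ n : ℕ, ∀ y : K, (∀ i < n, y i = x i) → f y = f x := by
    intro x
    have h2 : {y | f y = f x} ∈ 𝓝 x := (hf.isOpen_fiber (f x)).mem_nhds rfl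
    rw [nhds_pi, Filter.mem_pi] at h2
    obtain ⟨I, hI, t, ht, hsub⟩ := h2
    refine ⟨hI.toFinset.sup id + 1, fun y hy => hsub ?_⟩
    intro i hi
    have h3 : i ≤ hI.toFinset.sup id := Finset.le_sup (f := id) (hI.mem_toFinset.2 hi)
    rw [hy i (by omega)]
    exact mem_of_mem_nhds (ht i)
  choose n hn using h1
  have hopen : ∀ x : K, {y : K | ∀ i < n x, y i = x i} ∈ 𝓝 x := by
    intro x
    have : IsOpen {y : K | ∀ i < n x, y i = x i} := by
      have e : {y : K | ∀ i < n x, y i = x i} =
          ⋂ i ∈ Finset.range (n x), {y : K | y i = x i} := by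
        ext y; simp
      rw [e]
      exact isOpen_biInter_finset fun i _ => (isOpen_discrete ({x i} : Set Bool)).preimage
        (continuous_apply i : Continuous fun y : K => y i)
    exact this.mem_nhds (fun i _ => rfl)
  obtain ⟨t, -, ht⟩ := isCompact_univ.elim_nhds_subcover (fun x : K => {y : K | ∀ i < n x, y i = x i})
    (fun x _ => hopen x)
  refine ⟨t.sup n, fun x y hxy => ?_⟩
  have hx := ht (Set.mem_univ x)
  simp only [Set.mem_iUnion] at hx
  obtain ⟨z, hz, hxz⟩ := hx
  have h2 : n z ≤ t.sup n := Finset.le_sup hz
  have h3 : f x = f z := hn z x hxz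
  have h4 : f y = f z := hn z y fun i hi => by
    rw [← hxy i (by omega)]
    exact hxz i hi
  rw [h3, h4]

/-- functions of finitely many coordinates are locally constant -/
theorem locconst_of_dep {T : Type*} (f : K → T) (n : ℕ)
    (h : ∀ x y : K, (∀ i < n, x i = y i) → f x = f y) : IsLocallyConstant f := by
  rw [IsLocallyConstant.iff_eventually_eq]
  intro x
  have : {y : K | ∀ i < n, y i = x i} ∈ 𝓝 x := by
    have : IsOpen {y : K | ∀ i < n, y i = x i} := by
      have e : {y : K | ∀ i < n, y i = x i} =
          ⋂ i ∈ Finset.range n, {y : K | y i = x i} := by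
        ext y; simp
      rw [e]
      exact isOpen_biInter_finset fun i _ => (isOpen_discrete ({x i} : Set Bool)).preimage
        (continuous_apply i : Continuous fun y : K => y i)
    exact this.mem_nhds (fun i _ => rfl)
  filter_upwards [this] with y hy
  exact h y x hy

instance : Countable (LocallyConstant K ℤ) := by
  let F : (Σ n : ℕ, ((Fin n → Bool) → ℤ)) → LocallyConstant K ℤ := fun p =>
    ⟨fun x => p.2 (fun i => x i), locconst_of_dep _ p.1 fun x y h =>
      congrArg p.2 (funext fun i => h i i.2)⟩
  have hF : Function.Surjective F := by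
    intro f
    obtain ⟨n, hn⟩ := fin_dep f f.isLocallyConstant
    refine ⟨⟨n, fun s => f (fun i => if h : i < n then s ⟨i, h⟩ else false)⟩, ?_⟩
    ext x
    change f _ = f x
    apply hn
    intro i hi
    simp [hi]
  exact hF.countable

/-- gluing homeomorphisms along the fibres of locally constant maps -/
theorem glue {X Y T : Type*} [TopologicalSpace X] [TopologicalSpace Y] (q : X → T) (q' : Y → T)
    (hq : IsLocallyConstant q) (hq' : IsLocallyConstant q')
    (e : ∀ t, Nonempty ({x // q x = t} ≃ₜ {y // q' y = t})) :
    ∃ w : X ≃ₜ Y, ∀ x, q' (w x) = q x := by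
  let e := fun t => (e t).some
  have e1 : ∀ (y : Y) (t : T) (h : q' y = t),
      (((e (q' y)).symm ⟨y, rfl⟩ : {x // q x = q' y}) : X) = (((e t).symm ⟨y, h⟩ : {x // q x = t}) : X) := by
    rintro y _ rfl; rfl
  have e2 : ∀ (x : X) (t : T) (h : q x = t),
      ((e (q x) ⟨x, rfl⟩ : {y // q' y = q x}) : Y) = ((e t ⟨x, h⟩ : {y // q' y = t}) : Y) := by
    rintro x _ rfl; rfl
  let w : X → Y := fun x => (e (q x) ⟨x, rfl⟩ : {y // q' y = q x})
  let w' : Y → X := fun y => ((e (q' y)).symm ⟨y, rfl⟩ : {x // q x = q' y})
  have hw : ∀ x, q' (w x) = q x := fun x => (e (q x) ⟨x, rfl⟩).2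
  have hw' : ∀ y, q (w' y) = q' y := fun y => ((e (q' y)).symm ⟨y, rfl⟩).2
  have c1 : Continuous w := by
    rw [continuous_iff_continuousAt]
    intro x
    have hO : {z | q z = q x} ∈ 𝓝 x := (hq.isOpen_fiber (q x)).mem_nhds rfl
    have hc : ContinuousOn w {z | q z = q x} := by
      rw [continuousOn_iff_continuous_domRestrict]
      have h3 : Continuous fun z : {z | q z = q x} => ((e (q x) ⟨z.1, z.2⟩ : {y // q' y = q x}) : Y) :=
        continuous_subtype_val.comp ((e (q x)).continuous.comp
          (Continuous.subtype_mk continuous_subtype_val fun z => z.2))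
      refine h3.congr fun z => ?_
      exact (e2 z.1 (q x) z.2).symm
    exact hc.continuousAt hO
  have c2 : Continuous w' := by
    rw [continuous_iff_continuousAt]
    intro x
    have hO : {z | q' z = q' x} ∈ 𝓝 x := (hq'.isOpen_fiber (q' x)).mem_nhds rfl
    have hc : ContinuousOn w' {z | q' z = q' x} := by
      rw [continuousOn_iff_continuous_domRestrict]
      have h3 : Continuous fun z : {z | q' z = q' x} =>
          (((e (q' x)).symm ⟨z.1, z.2⟩ : {y // q y = q' x}) : X) :=
        continuous_subtype_val.comp ((e (q' x)).symm.continuous.comp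
          (Continuous.subtype_mk continuous_subtype_val fun z => z.2))
      refine h3.congr fun z => ?_
      exact (e1 z.1 (q' x) z.2).symm
    exact hc.continuousAt hO
  refine ⟨⟨⟨w, w', fun x => ?_, fun y => ?_⟩, c1, c2⟩, hw⟩
  · change (((e (q' (w x))).symm ⟨w x, rfl⟩ : {z // q z = q' (w x)}) : X) = x
    rw [e1 (w x) (q x) (hw x)]
    have : (⟨w x, hw x⟩ : {y // q' y = q x}) = e (q x) ⟨x, rfl⟩ := Subtype.ext rfl
    rw [this, Homeomorph.symm_apply_apply]
  · change ((e (q (w' y)) ⟨w' y, rfl⟩ : {z // q' z = q (w' y)}) : Y) = y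
    rw [e2 (w' y) (q' y) (hw' y)]
    have : (⟨w' y, hw' y⟩ : {x // q x = q' y}) = (e (q' y)).symm ⟨y, rfl⟩ := Subtype.ext rfl
    rw [this, Homeomorph.apply_symm_apply]

/-- the set of all points with a given prefix is homeomorphic to the Cantor space -/
theorem prefix_homeo (n : ℕ) (s : ℕ → Bool) :
    Nonempty ({x : K // ∀ i < n, x i = s i} ≃ₜ K) := by
  refine ⟨⟨⟨fun x i => x.1 (n + i), fun y => ⟨fun i => if i < n then s i else y (i - n),
    fun i hi => by simp [hi]⟩, fun x => ?_, fun y => ?_⟩, ?_, ?_⟩⟩
  · apply Subtype.ext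
    funext i
    by_cases h : i < n
    · simp [h, x.2 i h]
    · have h2 : n + (i - n) = i := by omega
      simp only [h, if_false, h2]
  · funext i
    simp
  · change Continuous fun x : {x : K // ∀ i < n, x i = s i} => (fun i => x.1 (n + i) : K)
    exact continuous_pi fun i => (continuous_apply (n + i)).comp continuous_subtype_val
  · change Continuous fun y : K => (⟨fun i => if i < n then s i else y (i - n), _⟩ :
      {x : K // ∀ i < n, x i = s i})
    refine Continuous.subtype_mk (continuous_pi fun i => ?_) _
    by_cases h : i < n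
    · simp only [h, if_true]
      exact continuous_const
    · simp only [h, if_false]
      exact continuous_apply _

/-- the number of leading `true`s, up to `n` -/
theorem exists_part (n : ℕ) : ∃ q : K → Fin (n + 1), IsLocallyConstant q ∧
    ∀ t, Nonempty ({x // q x = t} ≃ₜ K) := by
  induction n with
  | zero =>
    refine ⟨fun _ => 0, IsLocallyConstant.const _, fun t => ?_⟩
    obtain rfl : t = 0 := Fin.ext (by omega)
    exact ⟨(Homeomorph.setCongr (by ext; simp : {x : K | (0 : Fin 1) = 0} = Set.univ)).trans
      (Homeomorph.Set.univ K)⟩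
  | succ n ih =>
    obtain ⟨q, hq, e⟩ := ih
    let tl : K → K := fun x i => x (i + 1)
    have htl : Continuous tl := continuous_pi fun i => continuous_apply _
    let q1 : K → Fin (n + 2) := fun x => if x 0 = true then (q (tl x)).succ else 0
    have hq1 : IsLocallyConstant q1 := by
      have h1 : IsLocallyConstant fun x : K => (x 0, q (tl x)) := by
        refine IsLocallyConstant.prodMk ?_ ?_
        · exact (IsLocallyConstant.iff_continuous _).2 (continuous_apply 0)
        · exact hq.comp_continuous htl
      exact h1.comp fun p : Bool × Fin (n + 1) => if p.1 = true then p.2.succ else 0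
    refine ⟨q1, hq1, fun t => ?_⟩
    refine Fin.cases ?_ (fun t => ?_) t
    · obtain ⟨e0⟩ := prefix_homeo 1 (fun _ => false)
      refine ⟨(Homeomorph.setCongr ?_).trans e0⟩
      ext x
      change q1 x = 0 ↔ ∀ i < 1, x i = false
      simp only [q1]
      cases h : x 0 <;> simp [h, Fin.succ_ne_zero]
    · obtain ⟨e0⟩ := e t
      have e1 : {x : K // q1 x = t.succ} ≃ₜ {x : K // q x = t} := by
        refine ⟨⟨fun x => ⟨tl x.1, ?_⟩, fun y => ⟨fun i => Nat.casesOn i true fun j => y.1 j, ?_⟩,
          fun x => ?_, fun y => ?_⟩, ?_, ?_⟩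
        · have := x.2
          simp only [q1] at this
          by_cases h : x.1 0 = true
          · simp only [h, if_true] at this
            exact Fin.succ_injective _ this
          · simp only [h] at this
            exact absurd this.symm (Fin.succ_ne_zero _)
        · have hy := y.2
          change (if true = true then (q y.1).succ else 0) = t.succ
          rw [if_pos rfl, hy]
        · apply Subtype.ext
          funext i
          cases i with
          | zero =>
            have := x.2
            simp only [q1] at this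
            by_cases h : x.1 0 = true
            · exact h.symm
            · simp only [h] at this
              exact absurd this.symm (Fin.succ_ne_zero _)
          | succ i => rfl
        · rfl
        · exact Continuous.subtype_mk (htl.comp continuous_subtype_val) _
        · refine Continuous.subtype_mk (continuous_pi fun i => ?_) _
          cases i with
          | zero => exact continuous_const
          | succ i => exact (continuous_apply i).comp continuous_subtype_val
      exact ⟨e1.trans e0⟩

/-- nonempty fibres of locally constant maps are homeomorphic to the Cantor space -/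
theorem fiber_homeo {T : Type*} (q : K → T) (hq : IsLocallyConstant q) (t : T)
    (ht : ∃ x, q x = t) : Nonempty ({x // q x = t} ≃ₜ K) := by
  classical
  obtain ⟨n, hn⟩ := fin_dep q hq
  let X := {x : K // q x = t}
  let r : X → (Fin n → Bool) := fun x i => x.1 i
  have hr : Continuous r := continuous_pi fun i => (continuous_apply _).comp continuous_subtype_val
  let S := Set.range r
  haveI : Finite S := inferInstance
  haveI : Nonempty S := ⟨⟨_, ⟨⟨ht.choose, ht.choose_spec⟩, rfl⟩⟩⟩
  obtain ⟨m, ⟨f⟩⟩ := Finite.exists_equiv_fin S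
  obtain ⟨m, rfl⟩ : ∃ m', m = m' + 1 := by
    cases m with
    | zero => exact ((f (Classical.arbitrary S)).elim0)
    | succ m => exact ⟨m, rfl⟩
  obtain ⟨p, hp, hpe⟩ := exists_part m
  let q2 : X → Fin (m + 1) := fun x => f ⟨r x, x, rfl⟩
  have hq2 : IsLocallyConstant q2 := by
    have h1 : IsLocallyConstant r := (IsLocallyConstant.iff_continuous _).2 hr
    have h2 : ∀ x y, r x = r y → q2 x = q2 y := by
      intro x y h
      simp only [q2]
      congr 1
      exact Subtype.ext h
    rw [IsLocallyConstant.iff_eventually_eq] at h1 ⊢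
    intro x
    exact (h1 x).mono fun y hy => h2 _ _ hy
  obtain ⟨w, -⟩ := glue q2 p hq2 hp fun j => by
    obtain ⟨e2⟩ := hpe j
    -- the fibre of `q2` is a prefix set
    obtain ⟨⟨s, ⟨x0, hx0⟩⟩, hs⟩ := f.surjective j
    obtain ⟨e1⟩ := prefix_homeo n (fun i => x0.1 i)
    have e3 : {x : X // q2 x = j} ≃ₜ {x : K // ∀ i < n, x i = x0.1 i} := by
      have key : ∀ x : X, q2 x = j ↔ ∀ i < n, x.1 i = x0.1 i := by
        intro x
        rw [← hs]
        simp only [q2, EmbeddingLike.apply_eq_iff_eq]
        constructor
        · intro h i hi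
          have h1 : r x = s := congrArg Subtype.val h
          rw [← hx0] at h1
          exact congrFun h1 ⟨i, hi⟩
        · intro h
          apply Subtype.ext
          change r x = s
          rw [← hx0]
          funext i
          exact h i i.2
      refine ⟨⟨fun x => ⟨x.1.1, (key x.1).1 x.2⟩, fun x => ⟨⟨x.1, ?_⟩, ?_⟩, fun x => rfl,
        fun x => rfl⟩, ?_, ?_⟩
      · rw [hn x.1 x0.1 x.2]
        exact x0.2
      · rw [key]
        exact x.2
      · exact Continuous.subtype_mk (continuous_subtype_val.comp continuous_subtype_val) _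
      · exact Continuous.subtype_mk (Continuous.subtype_mk continuous_subtype_val _) _
    exact ⟨(e3.trans e1).trans e2.symm⟩
  exact ⟨w⟩

/-- homogeneity of the Cantor space -/
theorem homog {T : Type*} (q q' : K → T) (hq : IsLocallyConstant q) (hq' : IsLocallyConstant q')
    (h : Set.range q = Set.range q') : ∃ w : K ≃ₜ K, ∀ x, q' (w x) = q x := by
  refine glue q q' hq hq' fun t => ?_
  by_cases ht : t ∈ Set.range q
  · obtain ⟨e1⟩ := fiber_homeo q hq t ht
    have ht' : t ∈ Set.range q' := by rwa [← h]
    obtain ⟨e2⟩ := fiber_homeo q' hq' t ht'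
    exact ⟨e1.trans e2.symm⟩
  · have h1 : IsEmpty {x // q x = t} := ⟨fun x => ht ⟨x.1, x.2⟩⟩
    have h2 : IsEmpty {x // q' x = t} := ⟨fun x => ht (by rw [h]; exact ⟨x.1, x.2⟩)⟩
    exact ⟨⟨Equiv.equivOfIsEmpty _ _, continuous_of_discreteTopology,
      continuous_of_discreteTopology⟩⟩

/-- the homeomorphism of the Cantor space that swaps the first `N` coordinates with the next `N` -/
theorem exists_swap (N : ℕ) : ∃ w : K ≃ₜ K, (∀ x : K, ∀ i < N, w x i = x (i + N)) := by
  let σ : ℕ → ℕ := fun i => if i < N then i + N else if i < 2 * N then i - N else i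
  have hσ : ∀ i, σ (σ i) = i := by
    intro i
    simp only [σ]
    split_ifs <;> omega
  refine ⟨⟨⟨fun x i => x (σ i), fun x i => x (σ i), fun x => ?_, fun x => ?_⟩, ?_, ?_⟩, ?_⟩
  · funext i; change x (σ (σ i)) = x i; rw [hσ]
  · funext i; change x (σ (σ i)) = x i; rw [hσ]
  · exact continuous_pi fun i => continuous_apply _
  · exact continuous_pi fun i => continuous_apply _
  · intro x i hi
    change x (σ i) = _
    simp [σ, hi]

end Pool.Agent.W5h53.OB
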