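import Mathlib

set_option autoImplicit false
set_option linter.style.haveILetI false
set_option linter.unusedSectionVars false

open Filter Topology

namespace Pool.Agent.W5h53.OB

section Perm

variable {M : Type} [TopologicalSpace M] [DiscreteTopology M] (G : Subgroup (Equiv.Perm M))

/-- the map `g ↦ (g, g⁻¹)` -/
def emb (g : G) : (M → M) × (M → M) :=
  (((g : Equiv.Perm M) : M → M), (((g⁻¹ : G) : Equiv.Perm M) : M → M))

/-- the permutation group topology -/
@[reducible] def permTop : TopologicalSpace G := TopologicalSpace.induced (emb G) inferInstance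

theorem emb_injective : Function.Injective (emb G) := by
  intro g h hgh
  have h1 := congrArg Prod.fst hgh
  exact Subtype.ext (Equiv.coe_fn_injective h1)

theorem continuous_eval2 {X : Type*} [TopologicalSpace X] {f : X → M → M} {y : X → M}
    (hf : Continuous f) (hy : Continuous y) : Continuous fun x => f x (y x) := by
  rw [continuous_iff_continuousAt]
  intro x
  have h1 : ∀ᶠ z in 𝓝 x, y z = y x := by
    have := hy.continuousAt (x := x)
    exact this ((isOpen_discrete {y x}).mem_nhds rfl)
  have h2 : ∀ᶠ z in 𝓝 x, f z (y x) = f x (y x) := by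
    have := ((continuous_apply (y x)).comp hf).continuousAt (x := x)
    exact this ((isOpen_discrete {f x (y x)}).mem_nhds rfl)
  have h3 : ∀ᶠ z in 𝓝 x, f z (y z) = f x (y x) := by
    filter_upwards [h1, h2] with z hz1 hz2
    rw [hz1, hz2]
  exact tendsto_nhds_of_eventually_eq h3

theorem isTopologicalGroup_perm : @IsTopologicalGroup G (permTop G) _ := by
  letI : TopologicalSpace G := permTop G
  have hi : Topology.IsInducing (emb G) := ⟨rfl⟩
  have hc : Continuous (emb G) := hi.continuous
  refine { continuous_mul := ?_, continuous_inv := ?_ }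
  · rw [hi.continuous_iff]
    refine Continuous.prodMk ?_ ?_
    · refine continuous_pi fun x => ?_
      have h1 : Continuous fun p : G × G => ((p.1 : Equiv.Perm M) : M → M) :=
        continuous_fst.comp (hc.comp continuous_fst)
      have h2 : Continuous fun p : G × G => ((p.2 : Equiv.Perm M) : M → M) x :=
        (continuous_apply x).comp (continuous_fst.comp (hc.comp continuous_snd))
      have h3 := continuous_eval2 h1 h2
      exact h3.congr fun p => rfl
    · refine continuous_pi fun x => ?_
      have h1 : Continuous fun p : G × G => (((p.2⁻¹ : G) : Equiv.Perm M) : M → M) :=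
        continuous_snd.comp (hc.comp continuous_snd)
      have h2 : Continuous fun p : G × G => (((p.1⁻¹ : G) : Equiv.Perm M) : M → M) x :=
        (continuous_apply x).comp (continuous_snd.comp (hc.comp continuous_fst))
      have h3 := continuous_eval2 h1 h2
      refine h3.congr fun p => ?_
      change _ = (((p.1 * p.2)⁻¹ : G) : Equiv.Perm M) x
      rw [mul_inv_rev]
      rfl
  · rw [hi.continuous_iff]
    refine Continuous.prodMk ?_ ?_
    · exact continuous_snd.comp hc
    · have : Continuous fun g : G => ((g : Equiv.Perm M) : M → M) := continuous_fst.comp hc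
      refine this.congr fun g => ?_
      change _ = (((g⁻¹)⁻¹ : G) : M → M)
      rw [inv_inv]

/-- the pointwise stabiliser of a finite set -/
def stab (A : Finset M) : Subgroup G where
  carrier := {g | ∀ a ∈ A, (g : Equiv.Perm M) a = a}
  mul_mem' := by
    intro g h hg hh a ha
    change (g : Equiv.Perm M) ((h : Equiv.Perm M) a) = a
    rw [hh a ha, hg a ha]
  one_mem' := fun a _ => rfl
  inv_mem' := by
    intro g hg a ha
    change ((g : Equiv.Perm M)⁻¹) a = a
    rw [Equiv.Perm.inv_eq_iff_eq]
    exact (hg a ha).symm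

theorem mem_stab {A : Finset M} {g : G} : g ∈ stab G A ↔ ∀ a ∈ A, (g : Equiv.Perm M) a = a :=
  Iff.rfl

theorem isOpen_stab (A : Finset M) : @IsOpen G (permTop G) (stab G A : Set G) := by
  letI : TopologicalSpace G := permTop G
  have hi : Topology.IsInducing (emb G) := ⟨rfl⟩
  have hc : Continuous (emb G) := hi.continuous
  have h1 : (stab G A : Set G) = ⋂ a ∈ A, {g : G | (g : Equiv.Perm M) a = a} := by
    ext g
    simp [mem_stab]
  rw [h1]
  refine isOpen_biInter_finset fun a _ => ?_
  have h2 : Continuous fun g : G => (g : Equiv.Perm M) a :=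
    (continuous_apply a).comp (continuous_fst.comp hc)
  exact (isOpen_discrete {a}).preimage h2

theorem exists_stab_subset {s : Set G} (hs : s ∈ @nhds G (permTop G) 1) :
    ∃ A : Finset M, (stab G A : Set G) ⊆ s := by
  classical
  letI : TopologicalSpace G := permTop G
  have hi : Topology.IsInducing (emb G) := ⟨rfl⟩
  rw [hi.nhds_eq_comap, Filter.mem_comap] at hs
  obtain ⟨t, ht, hts⟩ := hs
  rw [nhds_prod_eq, Filter.mem_prod_iff] at ht
  obtain ⟨t1, ht1, t2, ht2, h12⟩ := ht
  have hpi : ∀ (f : M → M) (t : Set (M → M)), t ∈ 𝓝 f → ∃ A : Finset M, ∀ f' : M → M,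
      (∀ a ∈ A, f' a = f a) → f' ∈ t := by
    intro f t ht
    rw [nhds_pi, Filter.mem_pi] at ht
    obtain ⟨I, hI, u, hu, hsub⟩ := ht
    refine ⟨hI.toFinset, fun f' hf' => hsub ?_⟩
    intro i hi
    have h1 : f i ∈ u i := mem_of_mem_nhds (hu i)
    rw [hf' i (hI.mem_toFinset.2 hi)]
    exact h1
  obtain ⟨A1, hA1⟩ := hpi _ _ ht1
  obtain ⟨A2, hA2⟩ := hpi _ _ ht2
  refine ⟨A1 ∪ A2, fun g hg => hts (h12 ⟨hA1 _ fun a ha => ?_, hA2 _ fun a ha => ?_⟩)⟩
  · exact hg a (Finset.mem_union_left _ ha)
  · have hg' : g⁻¹ ∈ stab G (A1 ∪ A2) := (stab G (A1 ∪ A2)).inv_mem hg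
    have h1 : (emb G g).2 a = a := hg' a (Finset.mem_union_right _ ha)
    have h2 : (emb G (1 : G)).2 a = a := by
      change (((1 : G)⁻¹ : G) : Equiv.Perm M) a = a
      simp
    rw [h1, h2]

theorem nonarchimedean_perm : @NonarchimedeanGroup G _ (permTop G) := by
  letI : TopologicalSpace G := permTop G
  haveI := isTopologicalGroup_perm G
  refine { is_nonarchimedean := fun s hs => ?_ }
  obtain ⟨A, hA⟩ := exists_stab_subset G hs
  exact ⟨⟨stab G A, isOpen_stab G A⟩, hA⟩

theorem polish_perm [Countable M]
    (hG : ∃ C : Set (M → M), IsClosed C ∧ ∀ g : Equiv.Perm M, g ∈ G ↔ (g : M → M) ∈ C) :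
    @PolishSpace G (permTop G) := by
  letI : TopologicalSpace G := permTop G
  have hi : Topology.IsInducing (emb G) := ⟨rfl⟩
  obtain ⟨C, hC, hGC⟩ := hG
  haveI : PolishSpace M := by infer_instance
  have hr : Set.range (emb G) = {p : (M → M) × (M → M) | (∀ x, p.1 (p.2 x) = x) ∧
      (∀ x, p.2 (p.1 x) = x) ∧ p.1 ∈ C} := by
    ext p
    constructor
    · rintro ⟨g, rfl⟩
      refine ⟨fun x => ?_, fun x => ?_, ?_⟩
      · change (g : Equiv.Perm M) ((g : Equiv.Perm M)⁻¹ x) = x
        simp
      · change (g : Equiv.Perm M)⁻¹ ((g : Equiv.Perm M) x) = x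
        simp
      · exact (hGC _).1 g.2
    · rintro ⟨h1, h2, h3⟩
      let e : Equiv.Perm M := ⟨p.1, p.2, h2, h1⟩
      exact ⟨⟨e, (hGC e).2 h3⟩, rfl⟩
  have hcl : IsClosed (Set.range (emb G)) := by
    rw [hr]
    have h1 : IsClosed {p : (M → M) × (M → M) | ∀ x, p.1 (p.2 x) = x} := by
      simp only [Set.ofPred_forall]
      refine isClosed_iInter fun x => ?_
      have hc : Continuous fun p : (M → M) × (M → M) => p.1 (p.2 x) :=
        continuous_eval2 continuous_fst ((continuous_apply x).comp continuous_snd)
      exact (isClosed_discrete {x}).preimage hc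
    have h2 : IsClosed {p : (M → M) × (M → M) | ∀ x, p.2 (p.1 x) = x} := by
      simp only [Set.ofPred_forall]
      refine isClosed_iInter fun x => ?_
      have hc : Continuous fun p : (M → M) × (M → M) => p.2 (p.1 x) :=
        continuous_eval2 continuous_snd ((continuous_apply x).comp continuous_fst)
      exact (isClosed_discrete {x}).preimage hc
    exact h1.inter (h2.inter (hC.preimage continuous_fst))
  exact Topology.IsClosedEmbedding.polishSpace (f := emb G)
    ⟨⟨hi, emb_injective G⟩, hcl⟩

end Perm

end Pool.Agent.W5h53.OB
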