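import Mathlib
import Pool.Agent.W5h53.OB.Cantor
import Pool.Agent.W5h53.OB.PermTop

set_option autoImplicit false
set_option linter.style.haveILetI false

open Filter Topology

namespace Pool.Agent.W5h53.OB

/-- locally constant integer valued functions on the Cantor space -/
abbrev M : Type := LocallyConstant K ℤ

/-- the discrete topology on `M` -/
instance instTopM : TopologicalSpace M := ⊥

instance instDiscM : DiscreteTopology M := ⟨rfl⟩

/-- `f` preserves the sets of values of all finite families of differences -/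
def Pres (f : M → M) : Prop := ∀ A : Finset M,
  (∀ x : K, ∃ y : K, ∀ a ∈ A, ∀ b ∈ A, (f a) y - (f b) y = a x - b x) ∧
  (∀ y : K, ∃ x : K, ∀ a ∈ A, ∀ b ∈ A, (f a) y - (f b) y = a x - b x)

/-- the group of all permutations of `M` that preserve the sets of values of all finite families
of differences -/
def G : Subgroup (Equiv.Perm M) where
  carrier := {g | Pres g}
  mul_mem' := by
    classical
    intro g h hg hh A
    refine ⟨fun x => ?_, fun z => ?_⟩
    · obtain ⟨y, hy⟩ := (hh A).1 x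
      obtain ⟨z, hz⟩ := (hg (A.image h)).1 y
      refine ⟨z, fun a ha b hb => ?_⟩
      rw [← hy a ha b hb]
      exact hz (h a) (Finset.mem_image_of_mem _ ha) (h b) (Finset.mem_image_of_mem _ hb)
    · obtain ⟨y, hy⟩ := (hg (A.image h)).2 z
      obtain ⟨x, hx⟩ := (hh A).2 y
      refine ⟨x, fun a ha b hb => ?_⟩
      rw [← hx a ha b hb]
      exact hy (h a) (Finset.mem_image_of_mem _ ha) (h b) (Finset.mem_image_of_mem _ hb)
  one_mem' := fun A => ⟨fun x => ⟨x, fun a _ b _ => rfl⟩, fun x => ⟨x, fun a _ b _ => rfl⟩⟩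
  inv_mem' := by
    classical
    intro g hg A
    refine ⟨fun x => ?_, fun x => ?_⟩
    · obtain ⟨y, hy⟩ := (hg (A.image (g⁻¹ : Equiv.Perm M))).2 x
      refine ⟨y, fun a ha b hb => ?_⟩
      have := hy ((g⁻¹ : Equiv.Perm M) a) (Finset.mem_image_of_mem _ ha)
        ((g⁻¹ : Equiv.Perm M) b) (Finset.mem_image_of_mem _ hb)
      simpa using this.symm
    · obtain ⟨y, hy⟩ := (hg (A.image (g⁻¹ : Equiv.Perm M))).1 x
      refine ⟨y, fun a ha b hb => ?_⟩
      have := hy ((g⁻¹ : Equiv.Perm M) a) (Finset.mem_image_of_mem _ ha)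
        ((g⁻¹ : Equiv.Perm M) b) (Finset.mem_image_of_mem _ hb)
      simpa using this.symm

theorem mem_G {g : Equiv.Perm M} : g ∈ G ↔ Pres g := Iff.rfl

theorem isClosed_pres : IsClosed {f : M → M | Pres f} := by
  have h1 : {f : M → M | Pres f} = ⋂ A : Finset M, {f : M → M |
      (∀ x : K, ∃ y : K, ∀ a ∈ A, ∀ b ∈ A, (f a) y - (f b) y = a x - b x) ∧
      (∀ y : K, ∃ x : K, ∀ a ∈ A, ∀ b ∈ A, (f a) y - (f b) y = a x - b x)} := by
    ext f
    simp only [Set.mem_iInter]
    rfl
  rw [h1]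
  refine isClosed_iInter fun A => ?_
  rw [← isOpen_compl_iff, isOpen_iff_mem_nhds]
  intro f hf
  have hO : {f' : M → M | ∀ a ∈ A, f' a = f a} ∈ 𝓝 f := by
    have : IsOpen {f' : M → M | ∀ a ∈ A, f' a = f a} := by
      have e : {f' : M → M | ∀ a ∈ A, f' a = f a} = ⋂ a ∈ A, {f' : M → M | f' a = f a} := by
        ext y; simp
      rw [e]
      exact isOpen_biInter_finset fun a _ => (isOpen_discrete ({f a} : Set M)).preimage
        (continuous_apply a : Continuous fun y : M → M => y a)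
    exact this.mem_nhds fun _ _ => rfl
  refine Filter.mem_of_superset hO fun f' hf' hcon => hf ?_
  obtain ⟨h2, h3⟩ := hcon
  refine ⟨fun x => ?_, fun y => ?_⟩
  · obtain ⟨y, hy⟩ := h2 x
    refine ⟨y, fun a ha b hb => ?_⟩
    rw [← hf' a ha, ← hf' b hb]
    exact hy a ha b hb
  · obtain ⟨x, hx⟩ := h3 y
    refine ⟨x, fun a ha b hb => ?_⟩
    rw [← hf' a ha, ← hf' b hb]
    exact hx a ha b hb

/-- the permutation group topology on `G` -/
instance instTopG : TopologicalSpace G := permTop G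

instance instNonarchG : NonarchimedeanGroup G := nonarchimedean_perm G

instance instPolishG : PolishSpace G := polish_perm G ⟨_, isClosed_pres, fun _ => Iff.rfl⟩

/-- translations -/
def tr (f : M) : G := ⟨Equiv.addLeft f, fun A => ⟨fun x => ⟨x, fun a _ b _ => by simp⟩,
  fun x => ⟨x, fun a _ b _ => by simp⟩⟩⟩

theorem tr_apply (f a : M) : ((tr f : G) : Equiv.Perm M) a = f + a := rfl

theorem G_ext {g h : G} (H : ∀ a, (g : Equiv.Perm M) a = (h : Equiv.Perm M) a) : g = h :=
  Subtype.ext (Equiv.ext H)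

theorem mul_apply' (g h : G) (a : M) :
    ((g * h : G) : Equiv.Perm M) a = (g : Equiv.Perm M) ((h : Equiv.Perm M) a) := rfl

theorem tr_add (f g : M) : tr (f + g) = tr f * tr g :=
  G_ext fun a => by rw [mul_apply', tr_apply, tr_apply, tr_apply, add_assoc]

theorem tr_zero : tr 0 = 1 := G_ext fun a => by rw [tr_apply, zero_add]; rfl

theorem tr_neg (f : M) : tr (-f) = (tr f)⁻¹ := by
  rw [eq_inv_iff_mul_eq_one, ← tr_add, neg_add_cancel, tr_zero]

theorem tr_sub (f g : M) : tr (f - g) = (tr g)⁻¹ * tr f := by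
  rw [← tr_neg, ← tr_add]
  congr 1
  abel

theorem tr_comm (f g : M) : tr f * tr g = tr g * tr f := by
  rw [← tr_add, ← tr_add, add_comm]

/-- the element of `G` given by a homeomorphism -/
def hw (w : K ≃ₜ K) : G := ⟨
  { toFun := fun f => f.comap w
    invFun := fun f => f.comap w.symm
    left_inv := fun f => by ext x; simp [LocallyConstant.coe_comap]
    right_inv := fun f => by ext x; simp [LocallyConstant.coe_comap] },
  fun A => ⟨fun x => ⟨w.symm x, fun a _ b _ => by
    simp [LocallyConstant.coe_comap]⟩,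
    fun y => ⟨w y, fun a _ b _ => by simp [LocallyConstant.coe_comap]⟩⟩⟩

theorem hw_apply (w : K ≃ₜ K) (f : M) (x : K) : ((hw w : G) : Equiv.Perm M) f x = f (w x) := rfl

/-- the stabiliser of `0` -/
def H : Subgroup G where
  carrier := {g | (g : Equiv.Perm M) 0 = 0}
  mul_mem' := by
    intro g h hg hh
    change (g : Equiv.Perm M) ((h : Equiv.Perm M) 0) = 0
    rw [Set.mem_setOf_eq] at hg hh
    rw [hh, hg]
  one_mem' := rfl
  inv_mem' := by
    intro g hg
    change ((g : Equiv.Perm M)⁻¹) 0 = 0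
    rw [Equiv.Perm.inv_eq_iff_eq]
    exact hg.symm

theorem mem_H {g : G} : g ∈ H ↔ (g : Equiv.Perm M) 0 = 0 := Iff.rfl

theorem hw_mem (w : K ≃ₜ K) : hw w ∈ H := by
  rw [mem_H]
  ext x
  rfl

theorem H_fwd {h : G} (hh : h ∈ H) (A : Finset M) (x : K) :
    ∃ y : K, ∀ a ∈ A, ((h : Equiv.Perm M) a) y = a x := by
  classical
  obtain ⟨y, hy⟩ := (h.2 (insert 0 A)).1 x
  refine ⟨y, fun a ha => ?_⟩
  have := hy a (Finset.mem_insert_of_mem ha) 0 (Finset.mem_insert_self _ _)
  rw [mem_H.1 hh] at this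
  simpa using this

theorem H_bwd {h : G} (hh : h ∈ H) (A : Finset M) (y : K) :
    ∃ x : K, ∀ a ∈ A, ((h : Equiv.Perm M) a) y = a x := by
  classical
  obtain ⟨x, hx⟩ := (h.2 (insert 0 A)).2 y
  refine ⟨x, fun a ha => ?_⟩
  have := hx a (Finset.mem_insert_of_mem ha) 0 (Finset.mem_insert_self _ _)
  rw [mem_H.1 hh] at this
  simpa using this

theorem H_add {h : G} (hh : h ∈ H) (f g : M) :
    (h : Equiv.Perm M) (f + g) = (h : Equiv.Perm M) f + (h : Equiv.Perm M) g := by
  classical
  ext y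
  obtain ⟨x, hx⟩ := H_bwd hh {f, g, f + g} y
  have h1 := hx f (by simp)
  have h2 := hx g (by simp)
  have h3 := hx (f + g) (by simp)
  rw [LocallyConstant.coe_add, Pi.add_apply, h1, h2, h3, LocallyConstant.coe_add, Pi.add_apply]

theorem H_conj {h : G} (hh : h ∈ H) (f : M) : h * tr f * h⁻¹ = tr ((h : Equiv.Perm M) f) := by
  apply G_ext
  intro a
  change (h : Equiv.Perm M) (f + (h : Equiv.Perm M)⁻¹ a) = (h : Equiv.Perm M) f + a
  rw [H_add hh]
  simp

theorem H_conj' {h : G} (hh : h ∈ H) (f : M) :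
    h⁻¹ * tr f * h = tr (((h⁻¹ : G) : Equiv.Perm M) f) := by
  have := H_conj (H.inv_mem hh) f
  rwa [inv_inv] at this

/-- every element of `G` is a translation times an element of `H` -/
theorem decomp (g : G) : ∃ f : M, ∃ h ∈ H, g = tr f * h := by
  refine ⟨(g : Equiv.Perm M) 0, (tr ((g : Equiv.Perm M) 0))⁻¹ * g, ?_, by group⟩
  rw [mem_H, ← tr_neg, mul_apply', tr_apply]
  exact neg_add_cancel _

/-- a finite tuple of elements of `M` is locally constant -/
theorem tup_locconst {ι : Type*} [Finite ι] (Q : ι → M) :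
    IsLocallyConstant (fun (x : K) (i : ι) => Q i x) := by
  cases nonempty_fintype ι
  choose n hn using fun i => fin_dep (Q i) (Q i).isLocallyConstant
  refine locconst_of_dep _ (Finset.univ.sup n) fun x y h => ?_
  funext i
  refine hn i x y fun j hj => h j ?_
  exact lt_of_lt_of_le hj (Finset.le_sup (Finset.mem_univ i))

/-- homogeneity -/
theorem exists_hom {ι : Type*} [Finite ι] (Q Q' : ι → M)
    (h : Set.range (fun (x : K) (i : ι) => Q i x) = Set.range (fun (x : K) (i : ι) => Q' i x)) :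
    ∃ w : K ≃ₜ K, ∀ i, ((hw w : G) : Equiv.Perm M) (Q i) = Q' i := by
  obtain ⟨w, hw'⟩ := homog (fun (x : K) (i : ι) => Q' i x) (fun (x : K) (i : ι) => Q i x)
    (tup_locconst Q') (tup_locconst Q) h.symm
  refine ⟨w, fun i => ?_⟩
  ext x
  rw [hw_apply]
  exact congrFun (hw' x) i

/-- the joint values of a family are preserved by `H` -/
theorem H_range {ι : Type*} [Finite ι] (Q : ι → M) {h : G} (hh : h ∈ H) :
    Set.range (fun (x : K) (i : ι) => ((h : Equiv.Perm M) (Q i)) x) =
      Set.range (fun (x : K) (i : ι) => Q i x) := by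
  classical
  cases nonempty_fintype ι
  ext t
  constructor
  · rintro ⟨y, rfl⟩
    obtain ⟨x, hx⟩ := H_bwd hh (Finset.univ.image Q) y
    exact ⟨x, funext fun i => (hx (Q i) (Finset.mem_image_of_mem _ (Finset.mem_univ _))).symm⟩
  · rintro ⟨x, rfl⟩
    obtain ⟨y, hy⟩ := H_fwd hh (Finset.univ.image Q) x
    exact ⟨y, funext fun i => hy (Q i) (Finset.mem_image_of_mem _ (Finset.mem_univ _))⟩

end Pool.Agent.W5h53.OB
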