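import Mathlib

set_option autoImplicit false

open Filter Topology

namespace Pool.Agent.W5h53.OB

section Real

variable {ι : Type*} (U : Ultrafilter ι)

/-- bounded real families converge along ultrafilters -/
theorem exists_real_lim (f : ι → ℝ) (C : ℝ) (h : ∀ n, |f n| ≤ C) :
    ∃ y : ℝ, Tendsto f U (𝓝 y) := by
  have hc : IsCompact (Set.Icc (-C) C) := isCompact_Icc
  have hm : (Set.Icc (-C) C) ∈ (U.map f : Filter ℝ) := by
    rw [Ultrafilter.coe_map, Filter.mem_map]
    exact Filter.Eventually.of_forall (fun n => abs_le.mp (h n))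
  obtain ⟨y, -, hy⟩ := hc.ultrafilter_le_nhds (U.map f) (by simpa using hm)
  exact ⟨y, hy⟩

end Real

variable {ι : Type*} (U : Ultrafilter ι)
variable {E : Type*} [NormedAddCommGroup E] [NormedSpace ℝ E]

/-- `y` is the weak limit of the family `x` along `U` -/
def WL (x : ι → E) (y : E) : Prop :=
  ∀ φ : StrongDual ℝ E, Tendsto (fun n => φ (x n)) U (𝓝 (φ y))

/-- bounded families in a reflexive space have weak limits along ultrafilters -/
theorem exists_wl (hE : Function.Surjective (NormedSpace.inclusionInDoubleDual ℝ E))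
    (x : ι → E) (C : ℝ) (hx : ∀ n, ‖x n‖ ≤ C) : ∃ y : E, WL U x y := by
  have hb : ∀ φ : StrongDual ℝ E, ∀ n, |φ (x n)| ≤ ‖φ‖ * C := by
    intro φ n
    have h1 := φ.le_opNorm (x n)
    rw [Real.norm_eq_abs] at h1
    exact h1.trans (mul_le_mul_of_nonneg_left (hx n) (norm_nonneg φ))
  choose L hL using fun φ : StrongDual ℝ E => exists_real_lim U (fun n => φ (x n)) _ (hb φ)
  let T : StrongDual ℝ E →ₗ[ℝ] ℝ :=
    { toFun := L
      map_add' := fun φ ψ => by
        have h1 := (hL φ).add (hL ψ)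
        exact tendsto_nhds_unique (hL (φ + ψ)) h1
      map_smul' := fun c φ => by
        have h1 := (hL φ).const_mul c
        exact tendsto_nhds_unique (hL (c • φ)) h1 }
  have hT : ∀ φ, ‖T φ‖ ≤ C * ‖φ‖ := by
    intro φ
    have h1 : ∀ n, |φ (x n)| ≤ C * ‖φ‖ := fun n => by rw [mul_comm]; exact hb φ n
    have h2 : Tendsto (fun n => |φ (x n)|) U (𝓝 |L φ|) := (hL φ).abs
    exact le_of_tendsto h2 (Eventually.of_forall h1)
  obtain ⟨y, hy⟩ := hE (T.mkContinuous C hT)
  refine ⟨y, fun φ => ?_⟩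
  have h3 : φ y = L φ := by
    have := congrArg (fun g => g φ) hy
    simp only [NormedSpace.dual_def] at this
    exact this
  rw [h3]
  exact hL φ

/-- bounded families of functionals have weak-star limits along ultrafilters -/
theorem exists_wstar (ψ : ι → StrongDual ℝ E) (C : ℝ) (hψ : ∀ n, ‖ψ n‖ ≤ C) :
    ∃ ψ' : StrongDual ℝ E, (∀ x : E, Tendsto (fun n => ψ n x) U (𝓝 (ψ' x))) ∧ ‖ψ'‖ ≤ C := by
  have hC : 0 ≤ C := by
    have : (U : Filter ι).NeBot := U.neBot
    obtain ⟨n⟩ : Nonempty ι := (U : Filter ι).nonempty_of_neBot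
    exact (norm_nonneg _).trans (hψ n)
  have hb : ∀ x : E, ∀ n, |ψ n x| ≤ C * ‖x‖ := by
    intro x n
    have h1 := (ψ n).le_opNorm x
    rw [Real.norm_eq_abs] at h1
    exact h1.trans (mul_le_mul_of_nonneg_right (hψ n) (norm_nonneg x))
  choose L hL using fun x : E => exists_real_lim U (fun n => ψ n x) _ (hb x)
  let T : E →ₗ[ℝ] ℝ :=
    { toFun := L
      map_add' := fun x y => by
        have h1 := (hL x).add (hL y)
        refine tendsto_nhds_unique (hL (x + y)) (h1.congr (fun n => ?_))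
        rw [map_add]
      map_smul' := fun c x => by
        have h1 := (hL x).const_mul c
        refine tendsto_nhds_unique (hL (c • x)) (h1.congr (fun n => ?_))
        rw [map_smul]; rfl }
  have hT : ∀ x, ‖T x‖ ≤ C * ‖x‖ := by
    intro x
    have h2 : Tendsto (fun n => |ψ n x|) U (𝓝 |L x|) := (hL x).abs
    exact le_of_tendsto h2 (Eventually.of_forall (hb x))
  exact ⟨T.mkContinuous C hT, fun x => hL x, T.mkContinuous_norm_le hC hT⟩

/-- closed convex sets contain weak limits -/
theorem WL.mem {x : ι → E} {y : E} (h : WL U x y) {S : Set E} (hc : Convex ℝ S)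
    (hcl : IsClosed S) (hx : ∀ᶠ n in (U : Filter ι), x n ∈ S) : y ∈ S := by
  by_contra hy
  obtain ⟨φ, u, h1, h2⟩ := geometric_hahn_banach_closed_point hc hcl hy
  have h3 : φ y ≤ u := le_of_tendsto (h φ) (hx.mono fun n hn => (h1 _ hn).le)
  exact absurd h2 (not_lt.mpr h3)

theorem WL.norm_le {x : ι → E} {y : E} (h : WL U x y) {C : ℝ}
    (hx : ∀ᶠ n in (U : Filter ι), ‖x n‖ ≤ C) : ‖y‖ ≤ C := by
  have h1 := h.mem U (convex_closedBall (0 : E) C) Metric.isClosed_closedBall
    (hx.mono fun n hn => by simpa using hn)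
  simpa using h1

theorem WL.unique {x : ι → E} {y z : E} (h : WL U x y) (h' : WL U x z) : y = z := by
  have key : ∀ φ : StrongDual ℝ E, φ y = φ z := fun φ => tendsto_nhds_unique (h φ) (h' φ)
  exact (SeparatingDual.eq_iff_forall_dual_eq (R := ℝ)).2 key

/-- weak limits and affine isometries -/
theorem WL.affine {x : ι → E} {y : E} (h : WL U x y) (T : E ≃ᵃⁱ[ℝ] E) :
    WL U (fun n => T (x n)) (T y) := by
  intro φ
  have hT : ∀ z, T z = T.linearIsometryEquiv z + T 0 := by
    intro z
    have := T.map_vadd 0 z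
    simpa using this
  have h1 := h (φ.comp (T.linearIsometryEquiv.toContinuousLinearEquiv : E →L[ℝ] E))
  have h2 := h1.add_const (φ (T 0))
  rw [hT y, map_add]
  refine h2.congr (fun n => ?_)
  change _ = φ (T (x n))
  rw [hT (x n), map_add]
  rfl

end Pool.Agent.W5h53.OB
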