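import Mathlib
import Pool.Agent.W5h53.OB.WLim

set_option autoImplicit false

open Filter Topology

namespace Pool.Agent.W5h53.OB

/-- iterated quantifier over lists of length `k` -/
def Ev (U : Ultrafilter ℕ) : ℕ → (List ℕ → Prop) → Prop
  | 0, P => P []
  | k + 1, P => ∀ᶠ a in (U : Filter ℕ), Ev U k (fun l => P (a :: l))

/-- interlaced iterated quantifier over pairs of lists of length `k` -/
def Ev2 (U : Ultrafilter ℕ) : ℕ → (List ℕ → List ℕ → Prop) → Prop
  | 0, P => P [] []
  | k + 1, P => ∀ᶠ a in (U : Filter ℕ), ∀ᶠ b in (U : Filter ℕ),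
      Ev2 U k (fun l l' => P (a :: l) (b :: l'))

variable {U : Ultrafilter ℕ}

theorem Ev.mono {k : ℕ} {P Q : List ℕ → Prop} (h : Ev U k P) (hPQ : ∀ l, P l → Q l) :
    Ev U k Q := by
  induction k generalizing P Q with
  | zero => exact hPQ _ h
  | succ k ih => exact Filter.Eventually.mono h fun a ha => ih ha fun l => hPQ _

theorem Ev2.mono {k : ℕ} {P Q : List ℕ → List ℕ → Prop} (h : Ev2 U k P)
    (hPQ : ∀ l l', P l l' → Q l l') : Ev2 U k Q := by
  induction k generalizing P Q with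
  | zero => exact hPQ _ _ h
  | succ k ih =>
    exact Filter.Eventually.mono h fun a ha => ha.mono fun b hb => ih hb fun l l' => hPQ _ _

theorem Ev.and {k : ℕ} {P Q : List ℕ → Prop} (h : Ev U k P) (h' : Ev U k Q) :
    Ev U k (fun l => P l ∧ Q l) := by
  induction k generalizing P Q with
  | zero => exact ⟨h, h'⟩
  | succ k ih =>
    exact (Filter.Eventually.and h h').mono fun a ha => ih ha.1 ha.2

theorem Ev2.and {k : ℕ} {P Q : List ℕ → List ℕ → Prop} (h : Ev2 U k P) (h' : Ev2 U k Q) :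
    Ev2 U k (fun l l' => P l l' ∧ Q l l') := by
  induction k generalizing P Q with
  | zero => exact ⟨h, h'⟩
  | succ k ih =>
    exact (Filter.Eventually.and h h').mono fun a ha =>
      (ha.1.and ha.2).mono fun b hb => ih hb.1 hb.2

theorem Ev.exists {k : ℕ} {P : List ℕ → Prop} (h : Ev U k P) :
    ∃ l : List ℕ, l.length = k ∧ P l := by
  induction k generalizing P with
  | zero => exact ⟨[], rfl, h⟩
  | succ k ih =>
    obtain ⟨a, ha⟩ := Filter.Eventually.exists h
    obtain ⟨l, hl, hP⟩ := ih ha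
    exact ⟨a :: l, by simp [hl], hP⟩

theorem Ev2.exists {k : ℕ} {P : List ℕ → List ℕ → Prop} (h : Ev2 U k P) :
    ∃ l l' : List ℕ, l.length = k ∧ l'.length = k ∧ P l l' := by
  induction k generalizing P with
  | zero => exact ⟨[], [], rfl, rfl, h⟩
  | succ k ih =>
    obtain ⟨a, ha⟩ := Filter.Eventually.exists h
    obtain ⟨b, hb⟩ := ha.exists
    obtain ⟨l, l', hl, hl', hP⟩ := ih hb
    exact ⟨a :: l, b :: l', by simp [hl], by simp [hl'], hP⟩

theorem Ev.lift {k : ℕ} {P : List ℕ → Prop} (h : Ev U k P) :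
    Ev2 U k (fun l _ => P l) := by
  induction k generalizing P with
  | zero => exact h
  | succ k ih => exact Filter.Eventually.mono h fun a ha => Eventually.of_forall fun b => ih ha

theorem Ev.not_iff {k : ℕ} {P : List ℕ → Prop} : ¬ Ev U k P ↔ Ev U k (fun l => ¬ P l) := by
  induction k generalizing P with
  | zero => exact Iff.rfl
  | succ k ih =>
    change ¬ (∀ᶠ a in (U : Filter ℕ), Ev U k (fun l => P (a :: l))) ↔
      ∀ᶠ a in (U : Filter ℕ), Ev U k (fun l => ¬ P (a :: l))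
    rw [← Ultrafilter.eventually_not]
    exact Filter.eventually_congr (Eventually.of_forall fun a => ih)

/-- increasing lists with entries greater than `c` -/
def Inc : ℕ → List ℕ → Prop
  | _, [] => True
  | c, a :: l => c < a ∧ Inc a l

/-- interlaced lists with entries greater than `c` -/
def IL : ℕ → List ℕ → List ℕ → Prop
  | _, [], [] => True
  | c, a :: l, b :: l' => c < a ∧ a < b ∧ IL b l l'
  | _, [], _ :: _ => False
  | _, _ :: _, [] => False

theorem ev_inc (hU : (U : Filter ℕ) ≤ Filter.atTop) (k c : ℕ) : Ev U k (Inc c) := by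
  induction k generalizing c with
  | zero => exact trivial
  | succ k ih =>
    refine Filter.Eventually.mono (hU (Filter.eventually_gt_atTop c)) fun a ha => ?_
    exact (ih a).mono fun l hl => ⟨ha, hl⟩

theorem ev2_il (hU : (U : Filter ℕ) ≤ Filter.atTop) (k c : ℕ) : Ev2 U k (IL c) := by
  induction k generalizing c with
  | zero => exact trivial
  | succ k ih =>
    refine Filter.Eventually.mono (hU (Filter.eventually_gt_atTop c)) fun a ha => ?_
    refine Filter.Eventually.mono (hU (Filter.eventually_gt_atTop a)) fun b hb => ?_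
    exact (ih b).mono fun l l' hl => ⟨ha, hb, hl⟩

variable {E : Type*} [NormedAddCommGroup E] [NormedSpace ℝ E]

/-- `x` is the iterated weak limit of `φ` over lists of length `k` -/
def IsW (U : Ultrafilter ℕ) : ℕ → (List ℕ → E) → E → Prop
  | 0, φ, x => x = φ []
  | k + 1, φ, x => ∃ x' : ℕ → E, (∀ a, IsW U k (fun l => φ (a :: l)) (x' a)) ∧ WL U x' x

/-- `f` is the iterated weak-star limit of `ψ` over lists of length `k` -/
def IsF (U : Ultrafilter ℕ) : ℕ → (List ℕ → StrongDual ℝ E) → StrongDual ℝ E → Prop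
  | 0, ψ, f => f = ψ []
  | k + 1, ψ, f => ∃ f' : ℕ → StrongDual ℝ E, (∀ a, IsF U k (fun l => ψ (a :: l)) (f' a)) ∧
      ∀ y, Tendsto (fun a => f' a y) U (𝓝 (f y))

theorem exists_isW (hE : Function.Surjective (NormedSpace.inclusionInDoubleDual ℝ E)) (k : ℕ) :
    ∀ (φ : List ℕ → E) (R : ℝ), (∀ l, l.length = k → ‖φ l‖ ≤ R) →
      ∃ x : E, IsW U k φ x ∧ ‖x‖ ≤ R := by
  induction k with
  | zero => exact fun φ R h => ⟨φ [], rfl, h [] rfl⟩
  | succ k ih =>
    intro φ R h
    choose x' hx' hb using fun a => ih (fun l => φ (a :: l)) R (fun l hl => h _ (by simp [hl]))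
    obtain ⟨x, hx⟩ := exists_wl U hE x' R hb
    exact ⟨x, ⟨x', hx', hx⟩, hx.norm_le U (Eventually.of_forall hb)⟩

theorem exists_isF (k : ℕ) :
    ∀ (ψ : List ℕ → StrongDual ℝ E) (R : ℝ), (∀ l, l.length = k → ‖ψ l‖ ≤ R) →
      ∃ f : StrongDual ℝ E, IsF U k ψ f ∧ ‖f‖ ≤ R := by
  induction k with
  | zero => exact fun φ R h => ⟨φ [], rfl, h [] rfl⟩
  | succ k ih =>
    intro ψ R h
    choose f' hf' hb using fun a => ih (fun l => ψ (a :: l)) R (fun l hl => h _ (by simp [hl]))
    obtain ⟨f, hf, hfb⟩ := exists_wstar U f' R hb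
    exact ⟨f, ⟨f', hf', hf⟩, hfb⟩

theorem IsF.single {k : ℕ} {ψ : List ℕ → StrongDual ℝ E} {f : StrongDual ℝ E}
    (h : IsF U k ψ f) (y : E) {ε : ℝ} (hε : 0 < ε) : Ev U k (fun l => |ψ l y - f y| < ε) := by
  induction k generalizing ψ f ε with
  | zero =>
    obtain rfl := h
    simpa [Ev] using hε
  | succ k ih =>
    obtain ⟨f', h1, h2⟩ := h
    have h3 : ∀ᶠ a in (U : Filter ℕ), |f' a y - f y| < ε / 2 := by
      have := (h2 y).eventually (Metric.ball_mem_nhds (f y) (half_pos hε))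
      simpa [Real.dist_eq] using this
    refine Filter.Eventually.mono h3 fun a ha => ?_
    refine (ih (h1 a) (half_pos hε)).mono fun l hl => ?_
    have := abs_sub_le (ψ (a :: l) y) (f' a y) (f y)
    linarith

/-- the double limit formula -/
theorem double {k : ℕ} {φ : List ℕ → E} {ψ : List ℕ → StrongDual ℝ E} {x : E}
    {f : StrongDual ℝ E} (hx : IsW U k φ x) (hf : IsF U k ψ f) {ε : ℝ} (hε : 0 < ε) :
    Ev2 U k (fun l l' => |ψ l (φ l') - f x| < ε) := by
  induction k generalizing φ ψ x f ε with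
  | zero =>
    obtain rfl := hx
    obtain rfl := hf
    simpa [Ev2] using hε
  | succ k ih =>
    obtain ⟨x', hx1, hx2⟩ := hx
    obtain ⟨f', hf1, hf2⟩ := hf
    have h3 : 0 < ε / 3 := by positivity
    have h4 : ∀ᶠ a in (U : Filter ℕ), |f' a x - f x| < ε / 3 := by
      have := (hf2 x).eventually (Metric.ball_mem_nhds (f x) h3)
      simpa [Real.dist_eq] using this
    refine Filter.Eventually.mono h4 fun a ha => ?_
    have h5 : ∀ᶠ b in (U : Filter ℕ), |f' a (x' b) - f' a x| < ε / 3 := by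
      have := (hx2 (f' a)).eventually (Metric.ball_mem_nhds (f' a x) h3)
      simpa [Real.dist_eq] using this
    refine h5.mono fun b hb => ?_
    refine (ih (hx1 b) (hf1 a) h3).mono fun l l' hl => ?_
    have e1 := abs_sub_le (ψ (a :: l) (φ (b :: l'))) (f' a (x' b)) (f x)
    have e2 := abs_sub_le (f' a (x' b)) (f' a x) (f x)
    linarith

/-- Kalton's theorem: if a map from the `k`-subsets of `ℕ` to a reflexive space moves interlaced
subsets by at most `C`, then it moves some pair `m < m'` by at most `2 * (C + 1)` -/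
theorem kalton (hU : (U : Filter ℕ) ≤ Filter.atTop)
    (hE : Function.Surjective (NormedSpace.inclusionInDoubleDual ℝ E)) (k : ℕ)
    (φ : List ℕ → E) (R C : ℝ) (hR : ∀ l, l.length = k → ‖φ l‖ ≤ R)
    (hC : ∀ l l', l.length = k → l'.length = k → IL 0 l l' → ‖φ l - φ l'‖ ≤ C) :
    ∃ l l' : List ℕ, l.length = k ∧ l'.length = k ∧ Inc 0 l ∧ Inc l.sum l' ∧
      ‖φ l - φ l'‖ ≤ 2 * (C + 1) := by
  obtain ⟨x, hx, -⟩ := exists_isW (U := U) hE k φ R hR
  have key : Ev U k (fun l => ‖φ l - x‖ ≤ C + 1) := by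
    by_contra hcon
    rw [Ev.not_iff] at hcon
    choose ψ hψ1 hψ2 using fun l => exists_dual_vector'' ℝ (φ l - x)
    obtain ⟨f, hf, -⟩ := exists_isF (U := U) k ψ 1 (fun l _ => hψ1 l)
    have hq : (0 : ℝ) < 1 / 4 := by norm_num
    have h1 := double hx hf hq
    have h2 := (hf.single x hq).lift
    have h3 := ev2_il hU k 0
    obtain ⟨l, l', hl, hl', ⟨⟨h4, h5⟩, h6⟩, h7⟩ := (((h1.and h2).and h3).and hcon.lift).exists
    have h8 := hC l l' hl hl' h6
    have h9 : ψ l (φ l - φ l') ≤ ‖φ l - φ l'‖ := by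
      have e1 := (ψ l).le_opNorm (φ l - φ l')
      have e2 : ‖ψ l‖ * ‖φ l - φ l'‖ ≤ 1 * ‖φ l - φ l'‖ :=
        mul_le_mul_of_nonneg_right (hψ1 l) (norm_nonneg _)
      have e3 := le_abs_self (ψ l (φ l - φ l'))
      rw [Real.norm_eq_abs] at e1
      linarith
    have h10 : ψ l (φ l - φ l') = ‖φ l - x‖ + ψ l x - ψ l (φ l') := by
      have e1 := hψ2 l
      simp only [map_sub] at e1 ⊢
      have : ((‖φ l - x‖ : ℝ) : ℝ) = ψ l (φ l) - ψ l x := e1.symm
      rw [this]
      ring
    have h11 := abs_lt.mp h4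
    have h12 := abs_lt.mp h5
    push Not at h7
    linarith [h11.1, h11.2, h12.1, h12.2]
  obtain ⟨l, hl, h1, h2⟩ := (key.and (ev_inc hU k 0)).exists
  obtain ⟨l', hl', h3, h4⟩ := (key.and (ev_inc hU k l.sum)).exists
  refine ⟨l, l', hl, hl', h2, h4, ?_⟩
  calc ‖φ l - φ l'‖ = ‖(φ l - x) - (φ l' - x)‖ := by congr 1; abel
    _ ≤ ‖φ l - x‖ + ‖φ l' - x‖ := norm_sub_le _ _
    _ ≤ 2 * (C + 1) := by linarith

end Pool.Agent.W5h53.OB
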