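import Mathlib
import Pool.Agent.W5h53.OB.Grp
import Pool.Agent.W5h53.OB.Kalton

set_option autoImplicit false

open Filter Topology

namespace Pool.Agent.W5h53.OB

/-- indicator of the set of sequences starting with `n + 1` times `true` -/
def e (n : ℕ) : M := ⟨fun x => if ∀ i ≤ n, x i = true then 1 else 0,
  locconst_of_dep _ (n + 1) fun x y h => by
    have : (∀ i ≤ n, x i = true) ↔ (∀ i ≤ n, y i = true) :=
      forall₂_congr fun i hi => by rw [h i (by omega)]
    simp only [this]⟩

theorem e_apply (n : ℕ) (x : K) : e n x = if ∀ i ≤ n, x i = true then 1 else 0 := rfl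

theorem e_zero_or_one (n : ℕ) (x : K) : e n x = 0 ∨ e n x = 1 := by
  rw [e_apply]
  split_ifs <;> simp

/-- sums of the functions `e` -/
def xs (l : List ℕ) : M := (l.map e).sum

theorem xs_nil (x : K) : xs [] x = 0 := rfl

theorem xs_cons (a : ℕ) (l : List ℕ) (x : K) : xs (a :: l) x = e a x + xs l x := by
  simp [xs]

theorem xs_nonneg (l : List ℕ) (x : K) : 0 ≤ xs l x := by
  induction l with
  | nil => exact le_refl _
  | cons a l ih =>
    rw [xs_cons]
    rcases e_zero_or_one a x with h | h <;> rw [h] <;> omega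

theorem xs_le (l : List ℕ) (x : K) : xs l x ≤ l.length := by
  induction l with
  | nil => exact le_refl _
  | cons a l ih =>
    rw [xs_cons, List.length_cons]
    push_cast
    rcases e_zero_or_one a x with h | h <;> rw [h] <;> omega

theorem xs_eq_zero {c : ℕ} {l : List ℕ} (hl : Inc c l) {x : K}
    (hx : ∀ n, c < n → ¬ ∀ i ≤ n, x i = true) : xs l x = 0 := by
  induction l generalizing c with
  | nil => rfl
  | cons a l ih =>
    obtain ⟨h1, h2⟩ := hl
    rw [xs_cons, ih h2 fun n hn => hx n (by omega), e_apply, if_neg (hx a h1), add_zero]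

theorem xs_eq_length {l : List ℕ} {x : K}
    (hx : ∀ i ≤ l.sum, x i = true) : xs l x = l.length := by
  induction l with
  | nil => rfl
  | cons a l ih =>
    rw [List.sum_cons] at hx
    rw [xs_cons, ih fun i hi => hx i (by omega), e_apply, if_pos fun i hi => hx i (by omega),
      List.length_cons]
    push_cast
    ring

/-- the sequence with `t` times `true` followed by `false` -/
def th (t : ℕ) : K := fun i => decide (i < t)

theorem th_iff (t n : ℕ) : (∀ i ≤ n, th t i = true) ↔ n < t := by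
  simp only [th, decide_eq_true_eq]
  exact ⟨fun h => h n le_rfl, fun h i hi => by omega⟩

theorem xs_attain {c : ℕ} {l : List ℕ} (hl : Inc c l) (j : ℕ) (hj : j ≤ l.length) :
    ∃ t, c < t ∧ t ≤ c + l.sum + 1 ∧ xs l (th t) = j := by
  induction l generalizing c j with
  | nil =>
    obtain rfl : j = 0 := by simpa using hj
    exact ⟨c + 1, by omega, by simp, rfl⟩
  | cons a l ih =>
    obtain ⟨h1, h2⟩ := hl
    rcases Nat.eq_zero_or_pos j with rfl | hj0
    · refine ⟨c + 1, by omega, by omega, xs_eq_zero (c := c) (l := a :: l) ⟨h1, h2⟩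
        fun n hn => ?_⟩
      rw [th_iff]
      omega
    · obtain ⟨t, ht1, ht2, ht3⟩ := ih h2 (j - 1) (by simp at hj; omega)
      refine ⟨t, by omega, by simp; omega, ?_⟩
      rw [xs_cons, ht3, e_apply, if_pos ((th_iff _ _).2 ht1)]
      omega

theorem range_xs {l : List ℕ} (hl : Inc 0 l) :
    Set.range (fun x => xs l x) = Set.Icc (0 : ℤ) l.length := by
  ext v
  constructor
  · rintro ⟨x, rfl⟩
    exact ⟨xs_nonneg l x, xs_le l x⟩
  · rintro ⟨h1, h2⟩
    obtain ⟨t, -, -, ht⟩ := xs_attain hl v.toNat (by omega)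
    exact ⟨th t, by simp only [ht]; omega⟩

theorem range_inc {l l' : List ℕ} (hl : Inc 0 l) (hl' : Inc l.sum l')
    (hlen : l'.length = l.length) :
    Set.range (fun x => (xs l - xs l') x) = Set.Icc (0 : ℤ) l.length := by
  ext v
  constructor
  · rintro ⟨x, rfl⟩
    simp only [LocallyConstant.sub_apply]
    have h1 := xs_nonneg l x
    have h2 := xs_le l x
    have h3 := xs_nonneg l' x
    have h4 := xs_le l' x
    refine ⟨?_, by omega⟩
    by_cases hx : ∀ i ≤ l.sum, x i = true
    · rw [xs_eq_length hx]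
      omega
    · rw [xs_eq_zero hl' fun n hn h => hx fun i hi => h i (by omega)]
      omega
  · rintro ⟨h1, h2⟩
    obtain ⟨t, -, ht', ht⟩ := xs_attain hl v.toNat (by omega)
    refine ⟨th t, ?_⟩
    simp only [LocallyConstant.sub_apply]
    rw [ht, xs_eq_zero hl' fun n hn => by rw [th_iff]; omega]
    omega

theorem il_aux {c : ℕ} {l l' : List ℕ} (hl : IL c l l') (x : K) :
    (xs l x - xs l' x = 0 ∨ xs l x - xs l' x = 1) ∧
    ((¬ ∀ i ≤ c, x i = true) → xs l x - xs l' x = 0) := by
  induction l generalizing c l' with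
  | nil =>
    cases l' with
    | nil => simp
    | cons b l' => exact hl.elim
  | cons a l ih =>
    cases l' with
    | nil => exact hl.elim
    | cons b l' =>
      obtain ⟨h1, h2, h3⟩ := hl
      obtain ⟨h4, h5⟩ := ih h3
      rw [xs_cons, xs_cons]
      refine ⟨?_, fun hx => ?_⟩
      · by_cases hb : ∀ i ≤ b, x i = true
        · rw [e_apply, e_apply, if_pos hb, if_pos fun i hi => hb i (by omega)]
          rcases h4 with h | h <;> omega
        · have := h5 hb
          rw [e_apply b, if_neg hb]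
          rcases e_zero_or_one a x with h | h <;> rw [h] <;> omega
      · have ha : ¬ ∀ i ≤ a, x i = true := fun h => hx fun i hi => h i (by omega)
        have hb : ¬ ∀ i ≤ b, x i = true := fun h => hx fun i hi => h i (by omega)
        have := h5 hb
        rw [e_apply, e_apply, if_neg ha, if_neg hb]
        omega

theorem range_il {l l' : List ℕ} (hl : IL 0 l l') (hlen : 0 < l.length) :
    Set.range (fun x => (xs l - xs l') x) = Set.range (fun x => e 0 x) := by
  have h1 : Set.range (fun x => e 0 x) = ({0, 1} : Set ℤ) := by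
    ext v
    constructor
    · rintro ⟨x, rfl⟩
      exact e_zero_or_one 0 x
    · rintro (rfl | rfl)
      · exact ⟨th 0, by simp only [e_apply, th_iff]; simp⟩
      · exact ⟨th 1, by simp only [e_apply, th_iff]; simp⟩
  rw [h1]
  ext v
  constructor
  · rintro ⟨x, rfl⟩
    exact (il_aux hl x).1
  · rintro (rfl | rfl)
    · exact ⟨th 0, (il_aux hl (th 0)).2 (by rw [th_iff]; omega)⟩
    · cases l with
      | nil => simp at hlen
      | cons a l =>
        cases l' with
        | nil => exact hl.elim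
        | cons b l' =>
          obtain ⟨h2, h3, h4⟩ := hl
          refine ⟨th (a + 1), ?_⟩
          have h5 := (il_aux h4 (th (a + 1))).2 (by rw [th_iff]; omega)
          simp only [LocallyConstant.sub_apply, xs_cons, e_apply, th_iff]
          rw [if_pos (by omega), if_neg (by omega)]
          omega

variable {E : Type*} [NormedAddCommGroup E] [NormedSpace ℝ E] (ρ : G →* (E ≃ᵃⁱ[ℝ] E))

/-- the length function of the action -/
noncomputable def len (g : G) : ℝ := ‖ρ g 0‖

theorem rho_mul (g h : G) (v : E) : ρ (g * h) v = ρ g (ρ h v) := by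
  rw [map_mul, AffineIsometryEquiv.coe_mul]
  rfl

theorem rho_one (v : E) : ρ 1 v = v := by
  rw [map_one]
  rfl

theorem rho_inv (g : G) (v : E) : ρ g⁻¹ (ρ g v) = v := by
  rw [← rho_mul, inv_mul_cancel, rho_one]

theorem rho_inv' (g : G) (v : E) : ρ g (ρ g⁻¹ v) = v := by
  rw [← rho_mul, mul_inv_cancel, rho_one]

theorem rho_dist (g : G) (v w : E) : ‖ρ g v - ρ g w‖ = ‖v - w‖ := by
  rw [← dist_eq_norm, ← dist_eq_norm, AffineIsometryEquiv.dist_map]

theorem len_sub (g h : G) : ‖ρ g 0 - ρ h 0‖ = len ρ (h⁻¹ * g) := by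
  rw [len, rho_mul, ← rho_dist ρ h⁻¹, rho_inv, sub_zero]

theorem len_mul (g h : G) : len ρ (g * h) ≤ len ρ g + len ρ h := by
  have h1 := len_sub ρ (g * h) g
  rw [inv_mul_cancel_left] at h1
  have h2 : ‖ρ (g * h) 0‖ ≤ ‖ρ (g * h) 0 - ρ g 0‖ + ‖ρ g 0‖ := by
    have := norm_add_le (ρ (g * h) 0 - ρ g 0) (ρ g 0)
    rwa [sub_add_cancel] at this
  change ‖ρ (g * h) 0‖ ≤ _
  change _ ≤ ‖ρ g 0‖ + _
  linarith

theorem len_inv (g : G) : len ρ g⁻¹ = len ρ g := by
  have h1 := len_sub ρ 1 g
  rw [mul_one] at h1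
  rw [← h1]
  simp [len]

theorem len_nonneg (g : G) : 0 ≤ len ρ g := norm_nonneg _

/-- `len` is bounded on the stabiliser of `0` -/
theorem bdd_H (hρ : ∀ v : E, Continuous (fun g : G => ρ g v)) :
    ∃ B : ℝ, 0 ≤ B ∧ ∀ h ∈ H, len ρ h ≤ B := by
  classical
  have h1 : {g : G | len ρ g < 1} ∈ 𝓝 (1 : G) := by
    have hc : Continuous (len ρ) := (hρ 0).norm
    have : len ρ 1 < 1 := by simp [len]
    exact hc.continuousAt.eventually (gt_mem_nhds this)
  obtain ⟨A, hA⟩ := exists_stab_subset G h1
  let Q : G → (A ⊕ A) → M := fun h => Sum.elim (fun a => a.1)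
    (fun a => ((h⁻¹ : G) : Equiv.Perm M) a.1)
  let Φ : G → Set ((A ⊕ A) → ℤ) := fun h => Set.range (fun (x : K) i => Q h i x)
  have hfin : (Φ '' (H : Set G)).Finite := by
    let V : A → Set ℤ := fun a => Set.range fun x => a.1 x
    have hV : ∀ a, (V a).Finite := fun a => a.1.isLocallyConstant.range_finite
    let T : Set ((A ⊕ A) → ℤ) := Set.pi Set.univ fun i => Sum.elim V V i
    have hT : T.Finite := Set.Finite.pi (fun i => by
      rcases i with a | a
      · exact hV a
      · exact hV a)
    refine Set.Finite.subset hT.powerset ?_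
    rintro _ ⟨h, hh, rfl⟩
    rintro _ ⟨x, rfl⟩
    rintro (a | a) -
    · exact ⟨x, rfl⟩
    · obtain ⟨y, hy⟩ := H_bwd (H.inv_mem hh) {a.1} x
      exact ⟨y, (hy a.1 (by simp)).symm⟩
  let rep : Set ((A ⊕ A) → ℤ) → G := fun s => if hs : ∃ h ∈ H, Φ h = s then hs.choose else 1
  obtain ⟨C, hC⟩ := (hfin.image fun s => len ρ (rep s)).bddAbove
  refine ⟨max (C + 2) 0, le_max_right _ _, fun h hh => le_trans ?_ (le_max_left _ _)⟩
  have hs : ∃ h' ∈ H, Φ h' = Φ h := ⟨h, hh, rfl⟩
  have hr : rep (Φ h) = hs.choose := dif_pos hs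
  obtain ⟨hr1, hr2⟩ := hs.choose_spec
  rw [← hr] at hr1 hr2
  have hCr : len ρ (rep (Φ h)) ≤ C := hC ⟨_, ⟨h, hh, rfl⟩, rfl⟩
  obtain ⟨w, hw'⟩ := exists_hom (Q (rep (Φ h))) (Q h) hr2
  set k := rep (Φ h) with hk
  have hu : hw w ∈ stab G A := fun a ha => hw' (Sum.inl ⟨a, ha⟩)
  have hv : h * hw w * k⁻¹ ∈ stab G A := by
    intro a ha
    have := hw' (Sum.inr ⟨a, ha⟩)
    change (h : Equiv.Perm M) (((hw w : G) : Equiv.Perm M) (((k⁻¹ : G) : Equiv.Perm M) a)) = a
    change ((hw w : G) : Equiv.Perm M) (((k⁻¹ : G) : Equiv.Perm M) a) =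
      ((h⁻¹ : G) : Equiv.Perm M) a at this
    rw [this]
    change (h : Equiv.Perm M) ((h : Equiv.Perm M)⁻¹ a) = a
    simp
  have hu1 : len ρ (hw w) < 1 := hA hu
  have hv1 : len ρ (h * hw w * k⁻¹) < 1 := hA hv
  have e1 : h = (h * hw w * k⁻¹) * k * (hw w)⁻¹ := by group
  calc len ρ h = len ρ ((h * hw w * k⁻¹) * k * (hw w)⁻¹) := congrArg _ e1
    _ ≤ len ρ ((h * hw w * k⁻¹) * k) + len ρ (hw w)⁻¹ := len_mul _ _ _
    _ ≤ len ρ (h * hw w * k⁻¹) + len ρ k + len ρ (hw w)⁻¹ := by
        gcongr
        exact len_mul _ _ _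
    _ ≤ C + 2 := by
        rw [len_inv]
        linarith

theorem exists_conj {f f' : M} (h : Set.range (fun x => f x) = Set.range (fun x => f' x)) :
    ∃ h ∈ H, tr f' = h * tr f * h⁻¹ := by
  have h1 : Set.range (fun (x : K) (i : Unit) => (fun _ => f : Unit → M) i x) =
      Set.range (fun (x : K) (i : Unit) => (fun _ => f' : Unit → M) i x) := by
    ext t
    constructor
    · rintro ⟨x, rfl⟩
      have : f x ∈ Set.range (fun x => f' x) := by rw [← h]; exact ⟨x, rfl⟩
      obtain ⟨y, hy⟩ := this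
      exact ⟨y, funext fun _ => hy⟩
    · rintro ⟨x, rfl⟩
      have : f' x ∈ Set.range (fun x => f x) := by rw [h]; exact ⟨x, rfl⟩
      obtain ⟨y, hy⟩ := this
      exact ⟨y, funext fun _ => hy⟩
  obtain ⟨w, hw'⟩ := exists_hom _ _ h1
  refine ⟨hw w, hw_mem w, ?_⟩
  rw [H_conj (hw_mem w), hw' ()]

theorem len_conj {B : ℝ} (hB : ∀ h ∈ H, len ρ h ≤ B) {f f' : M}
    (h : Set.range (fun x => f x) = Set.range (fun x => f' x)) :
    len ρ (tr f') ≤ len ρ (tr f) + 2 * B := by
  obtain ⟨h, hh, e1⟩ := exists_conj h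
  rw [e1]
  have h1 := len_mul ρ (h * tr f) h⁻¹
  have h2 := len_mul ρ h (tr f)
  rw [len_inv] at h1
  have h3 := hB h hh
  linarith

/-- `len` is bounded on the set of translations by functions whose set of values is an interval
starting with `0` -/
theorem bdd_int (hE : Function.Surjective (NormedSpace.inclusionInDoubleDual ℝ E))
    {B : ℝ} (hB0 : 0 ≤ B) (hB : ∀ h ∈ H, len ρ h ≤ B) :
    ∃ D : ℝ, 0 ≤ D ∧ ∀ (k : ℕ) (f : M), Set.range (fun x => f x) = Set.Icc (0 : ℤ) k →
      len ρ (tr f) ≤ D := by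
  set C := len ρ (tr (e 0)) + 2 * B with hC
  have hC0 : 0 ≤ C := by
    have := len_nonneg ρ (tr (e 0))
    positivity
  refine ⟨2 * (C + 1) + 2 * B, by positivity, fun k f hf => ?_⟩
  rcases Nat.eq_zero_or_pos k with rfl | hk
  · have : f = 0 := by
      ext x
      have : f x ∈ Set.range (fun x => f x) := ⟨x, rfl⟩
      rw [hf] at this
      simpa using this
    rw [this, tr_zero, len, rho_one, norm_zero]
    positivity
  · have hsub : ∀ f g : M, ‖ρ (tr f) 0 - ρ (tr g) 0‖ = len ρ (tr (f - g)) := by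
      intro f g
      rw [len_sub, tr_sub]
    have hR : ∀ l : List ℕ, len ρ (tr (xs l)) ≤ l.length * C := by
      intro l
      induction l with
      | nil =>
        have : xs [] = 0 := rfl
        rw [this, tr_zero, len, rho_one, norm_zero]
        simp
      | cons a l ih =>
        have h1 : xs (a :: l) = e a + xs l := by simp [xs]
        rw [h1, tr_add, List.length_cons]
        have h2 := len_mul ρ (tr (e a)) (tr (xs l))
        have h3 : len ρ (tr (e a)) ≤ C := by
          refine len_conj ρ hB ?_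
          have r1 : ∀ n, Set.range (fun x => e n x) = ({0, 1} : Set ℤ) := by
            intro n
            ext v
            constructor
            · rintro ⟨x, rfl⟩
              exact e_zero_or_one n x
            · rintro (rfl | rfl)
              · exact ⟨th 0, by simp only [e_apply, th_iff]; simp⟩
              · exact ⟨th (n + 1), by simp only [e_apply, th_iff]; simp⟩
          rw [r1, r1]
        push_cast
        linarith
    obtain ⟨l, l', hl, hl', h1, h2, h3⟩ := kalton (U := Filter.hyperfilter ℕ)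
      Nat.hyperfilter_le_atTop hE k (fun l => ρ (tr (xs l)) 0) (k * C) C
      (fun l hl => by
        have := hR l
        rw [hl] at this
        exact this)
      (fun l l' hl hl' hil => by
        rw [hsub]
        exact len_conj ρ hB (range_il hil (by omega)).symm)
    rw [hsub] at h3
    have h4 := len_conj ρ hB (f := xs l - xs l') (f' := f)
      (by rw [hf, range_inc h1 h2 (by omega), hl])
    linarith

/-- the shift as a continuous map -/
def shc (n : ℕ) : C(K, K) := ⟨fun x i => x (n + i), continuous_pi fun i => continuous_apply (n + i)⟩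

/-- composition with the shift -/
def sh (n : ℕ) (f : M) : M := f.comap (shc n)

theorem sh_apply (n : ℕ) (f : M) (x : K) : sh n f x = f (fun i => x (n + i)) := rfl

/-- gluing of two sequences -/
def gl (n : ℕ) (x y : K) : K := fun i => if i < n then x i else y (i - n)

theorem gl_lt {n : ℕ} (x y : K) {i : ℕ} (hi : i < n) : gl n x y i = x i := if_pos hi

theorem gl_add (n : ℕ) (x y : K) (i : ℕ) : gl n x y (n + i) = y i := by
  rw [gl, if_neg (by omega)]
  congr 1
  omega

theorem sh_gl (n : ℕ) (f : M) (x y : K) : sh n f (gl n x y) = f y := by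
  rw [sh_apply]
  congr 1
  funext i
  exact gl_add n x y i

theorem exists_inc (k c : ℕ) : ∃ l : List ℕ, l.length = k ∧ Inc c l := by
  induction k generalizing c with
  | zero => exact ⟨[], rfl, trivial⟩
  | succ k ih =>
    obtain ⟨l, hl, h⟩ := ih (c + 1)
    exact ⟨(c + 1) :: l, by simp [hl], ⟨by omega, h⟩⟩

theorem exists_range (N : ℕ) : ∃ f : M, Set.range (fun x => f x) = Set.Icc (-N : ℤ) N := by
  obtain ⟨l, hl, h⟩ := exists_inc (2 * N) 0
  refine ⟨xs l - LocallyConstant.const K (N : ℤ), ?_⟩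
  have h1 := range_xs h
  rw [hl] at h1
  ext v
  constructor
  · rintro ⟨x, rfl⟩
    have h2 : xs l x ∈ Set.range (fun x => xs l x) := ⟨x, rfl⟩
    rw [h1] at h2
    simp only [LocallyConstant.sub_apply, LocallyConstant.coe_const, Function.const_apply]
    obtain ⟨h3, h4⟩ := h2
    push_cast at h4
    constructor <;> omega
  · rintro ⟨h2, h3⟩
    have h4 : v + N ∈ Set.range (fun x => xs l x) := by
      rw [h1]
      push_cast
      constructor <;> omega
    obtain ⟨x, hx⟩ := h4
    refine ⟨x, ?_⟩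
    simp only [LocallyConstant.sub_apply, LocallyConstant.coe_const, Function.const_apply]
    simp only at hx
    omega

theorem bdd_int2 {D : ℝ} (hD : ∀ (k : ℕ) (f : M), Set.range (fun x => f x) = Set.Icc (0 : ℤ) k →
      len ρ (tr f) ≤ D) (a b : ℕ) (f : M) (hf : Set.range (fun x => f x) = Set.Icc (-a : ℤ) b) :
    len ρ (tr f) ≤ 2 * D := by
  have e1 : f = f.map (fun v => max v 0) - f.map (fun v => max (-v) 0) := by
    ext x
    simp only [LocallyConstant.sub_apply, LocallyConstant.map_apply, Function.comp]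
    omega
  have r1 : Set.range (fun x => (f.map (fun v => max v 0)) x) = Set.Icc (0 : ℤ) b := by
    ext v
    constructor
    · rintro ⟨x, rfl⟩
      have h2 : f x ∈ Set.range (fun x => f x) := ⟨x, rfl⟩
      rw [hf] at h2
      obtain ⟨h3, h4⟩ := h2
      simp only [LocallyConstant.map_apply, Function.comp]
      constructor <;> omega
    · rintro ⟨h2, h3⟩
      have h4 : v ∈ Set.range (fun x => f x) := by
        rw [hf]
        constructor <;> omega
      obtain ⟨x, hx⟩ := h4
      refine ⟨x, ?_⟩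
      simp only [LocallyConstant.map_apply, Function.comp]
      simp only at hx
      omega
  have r2 : Set.range (fun x => (f.map (fun v => max (-v) 0)) x) = Set.Icc (0 : ℤ) a := by
    ext v
    constructor
    · rintro ⟨x, rfl⟩
      have h2 : f x ∈ Set.range (fun x => f x) := ⟨x, rfl⟩
      rw [hf] at h2
      obtain ⟨h3, h4⟩ := h2
      simp only [LocallyConstant.map_apply, Function.comp]
      constructor <;> omega
    · rintro ⟨h2, h3⟩
      have h4 : -v ∈ Set.range (fun x => f x) := by
        rw [hf]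
        constructor <;> omega
      obtain ⟨x, hx⟩ := h4
      refine ⟨x, ?_⟩
      simp only [LocallyConstant.map_apply, Function.comp]
      simp only at hx
      omega
  rw [e1, tr_sub]
  have h1 := len_mul ρ (tr (f.map (fun v => max (-v) 0)))⁻¹ (tr (f.map (fun v => max v 0)))
  rw [len_inv] at h1
  have h2 := hD b _ r1
  have h3 := hD a _ r2
  linarith

theorem bdd_tr {D : ℝ} (hD : ∀ (k : ℕ) (f : M), Set.range (fun x => f x) = Set.Icc (0 : ℤ) k →
      len ρ (tr f) ≤ D) (g : M) : len ρ (tr g) ≤ 4 * D := by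
  have hfin : (Set.range (fun x => g x)).Finite := g.isLocallyConstant.range_finite
  have hne : (Set.range (fun x => g x)).Nonempty := ⟨_, ⟨fun _ => true, rfl⟩⟩
  obtain ⟨_, ⟨x0, rfl⟩, h0⟩ := Set.exists_min_image _ id hfin hne
  obtain ⟨_, ⟨x1, rfl⟩, h1⟩ := Set.exists_max_image _ id hfin hne
  have h0' : ∀ x, g x0 ≤ g x := fun x => h0 _ ⟨x, rfl⟩
  have h1' : ∀ x, g x ≤ g x1 := fun x => h1 _ ⟨x, rfl⟩
  obtain ⟨n, hn⟩ := fin_dep g g.isLocallyConstant
  set N : ℕ := (g x0).natAbs + (g x1).natAbs with hN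
  obtain ⟨F, hF⟩ := exists_range N
  have hFs : Set.range (fun x => (sh n F) x) = Set.Icc (-N : ℤ) N := by
    rw [← hF]
    ext v
    constructor
    · rintro ⟨x, rfl⟩
      exact ⟨fun i => x (n + i), rfl⟩
    · rintro ⟨x, rfl⟩
      exact ⟨gl n x x, sh_gl n F x x⟩
  have hglu : ∀ x y : K, (g + sh n F) (gl n x y) = g x + F y := by
    intro x y
    rw [LocallyConstant.add_apply, sh_gl, hn (gl n x y) x fun i hi => gl_lt x y hi]
  have hr : Set.range (fun x => (g + sh n F) x) =
      Set.Icc (-((N - g x0).toNat : ℕ) : ℤ) ((N + g x1).toNat : ℕ) := by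
    have q0 : g x0 ≤ g x1 := h0' x1
    ext v
    constructor
    · rintro ⟨x, rfl⟩
      have h2 : sh n F x ∈ Set.range (fun x => sh n F x) := ⟨x, rfl⟩
      rw [hFs] at h2
      obtain ⟨h3, h4⟩ := h2
      have := h0' x
      have := h1' x
      simp only [LocallyConstant.add_apply]
      constructor <;> omega
    · rintro ⟨h2, h3⟩
      rcases le_or_gt 0 v with hv | hv
      · have h4 : v - g x1 ∈ Set.range (fun x => F x) := by
          rw [hF]
          constructor <;> omega
        obtain ⟨y, hy⟩ := h4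
        refine ⟨gl n x1 y, ?_⟩
        simp only [hglu]
        simp only at hy
        omega
      · have h4 : v - g x0 ∈ Set.range (fun x => F x) := by
          rw [hF]
          constructor <;> omega
        obtain ⟨y, hy⟩ := h4
        refine ⟨gl n x0 y, ?_⟩
        simp only [hglu]
        simp only at hy
        omega
  have h2 := bdd_int2 ρ hD _ _ _ hr
  have h3 := bdd_int2 ρ hD _ _ _ hFs
  have e1 : g = (g + sh n F) - sh n F := by abel
  rw [e1, tr_sub]
  have h4 := len_mul ρ (tr (sh n F))⁻¹ (tr (g + sh n F))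
  rw [len_inv] at h4
  linarith

/-- orbits of the affine isometric actions are bounded -/
theorem bdd_G (hE : Function.Surjective (NormedSpace.inclusionInDoubleDual ℝ E))
    (hρ : ∀ v : E, Continuous (fun g : G => ρ g v)) :
    ∃ C : ℝ, ∀ g : G, len ρ g ≤ C := by
  obtain ⟨B, hB0, hB⟩ := bdd_H ρ hρ
  obtain ⟨D, hD0, hD⟩ := bdd_int ρ hE hB0 hB
  refine ⟨4 * D + B, fun g => ?_⟩
  obtain ⟨f, h, hh, rfl⟩ := decomp g
  have h1 := len_mul ρ (tr f) h
  have h2 := bdd_tr ρ hD f
  have h3 := hB h hh
  linarith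

end Pool.Agent.W5h53.OB
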