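import Mathlib
import Pool.Agent.W5h53.OB.Bdd

set_option autoImplicit false

open Filter Topology

namespace Pool.Agent.W5h53.OB

variable {E : Type*} [NormedAddCommGroup E] [NormedSpace ℝ E]

theorem comb (T : E ≃ᵃⁱ[ℝ] E) {a b : ℝ} (hab : a + b = 1) (u v : E) :
    T (a • u + b • v) = a • T u + b • T v :=
  Convex.combo_affine_apply (f := T.toAffineEquiv.toAffineMap) hab

theorem norm_comb {a b : ℝ} (ha : 0 ≤ a) (hb : 0 ≤ b) (hab : a + b = 1) {u v : E} {C : ℝ}
    (hu : ‖u‖ ≤ C) (hv : ‖v‖ ≤ C) : ‖a • u + b • v‖ ≤ C := by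
  calc ‖a • u + b • v‖ ≤ ‖a • u‖ + ‖b • v‖ := norm_add_le _ _
    _ = a * ‖u‖ + b * ‖v‖ := by
        rw [norm_smul, norm_smul, Real.norm_of_nonneg ha, Real.norm_of_nonneg hb]
    _ ≤ a * C + b * C := by gcongr
    _ = C := by rw [← add_mul, hab, one_mul]

/-- an affine isometry maps averages to averages -/
theorem map_avg (T : E ≃ᵃⁱ[ℝ] E) (v : ℕ → E) (n : ℕ) :
    T ((n + 1 : ℝ)⁻¹ • ∑ i ∈ Finset.range (n + 1), v i) =
      (n + 1 : ℝ)⁻¹ • ∑ i ∈ Finset.range (n + 1), T (v i) := by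
  have hT : ∀ z, T z = T.linearIsometryEquiv z + T 0 := by
    intro z
    have := T.map_vadd 0 z
    simpa using this
  rw [hT]
  have h1 : ∑ i ∈ Finset.range (n + 1), T (v i) =
      ∑ i ∈ Finset.range (n + 1), (T.linearIsometryEquiv (v i) + T 0) :=
    Finset.sum_congr rfl fun i _ => hT _
  rw [h1, Finset.sum_add_distrib, Finset.sum_const, Finset.card_range, smul_add, map_smul, map_sum]
  congr 1
  rw [← Nat.cast_smul_eq_nsmul ℝ, smul_smul]
  push_cast
  rw [inv_mul_cancel₀ (by positivity), one_smul]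

/-- an affine isometry has a fixed point in every bounded closed convex invariant set -/
theorem fix_one (hE : Function.Surjective (NormedSpace.inclusionInDoubleDual ℝ E))
    (T : E ≃ᵃⁱ[ℝ] E) (S : Set E) (hS : Convex ℝ S) (hcl : IsClosed S) (C : ℝ)
    (hb : ∀ v ∈ S, ‖v‖ ≤ C) (hT : ∀ v ∈ S, T v ∈ S) (hne : S.Nonempty) :
    ∃ v ∈ S, T v = v := by
  obtain ⟨v0, hv0⟩ := hne
  let U : Ultrafilter ℕ := Filter.hyperfilter ℕ
  have hU : (U : Filter ℕ) ≤ atTop := Nat.hyperfilter_le_atTop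
  have hit : ∀ i : ℕ, T^[i] v0 ∈ S := by
    intro i
    induction i with
    | zero => exact hv0
    | succ i ih =>
      rw [Function.iterate_succ_apply']
      exact hT _ ih
  let A : ℕ → E := fun n => (n + 1 : ℝ)⁻¹ • ∑ i ∈ Finset.range (n + 1), T^[i] v0
  have hA : ∀ n, A n ∈ S := by
    intro n
    have : A n = ∑ i ∈ Finset.range (n + 1), (n + 1 : ℝ)⁻¹ • T^[i] v0 := Finset.smul_sum
    rw [this]
    refine hS.sum_mem (fun i _ => by positivity) ?_ fun i _ => hit i
    rw [Finset.sum_const, Finset.card_range, nsmul_eq_mul]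
    push_cast
    rw [mul_inv_cancel₀ (by positivity)]
  have hTA : ∀ n, T (A n) - A n = (n + 1 : ℝ)⁻¹ • (T^[n + 1] v0 - v0) := by
    intro n
    change T ((n + 1 : ℝ)⁻¹ • ∑ i ∈ Finset.range (n + 1), T^[i] v0) -
      (n + 1 : ℝ)⁻¹ • ∑ i ∈ Finset.range (n + 1), T^[i] v0 = _
    rw [map_avg, ← smul_sub, ← Finset.sum_sub_distrib]
    congr 1
    have : ∀ i ∈ Finset.range (n + 1), T (T^[i] v0) - T^[i] v0 = T^[i + 1] v0 - T^[i] v0 := by
      intro i _
      rw [Function.iterate_succ_apply']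
    rw [Finset.sum_congr rfl this, Finset.sum_range_sub (fun i => T^[i] v0)]
    rfl
  obtain ⟨y, hy⟩ := exists_wl U hE A C fun n => hb _ (hA n)
  refine ⟨y, hy.mem U hS hcl (Eventually.of_forall hA), ?_⟩
  have h1 : WL U (fun n => T (A n)) (T y) := hy.affine U T
  have h2 : Tendsto (fun n => T (A n) - A n) atTop (𝓝 0) := by
    rw [tendsto_zero_iff_norm_tendsto_zero]
    have h3 : Tendsto (fun n : ℕ => (1 / ((n : ℝ) + 1)) * (2 * C)) atTop (𝓝 (0 * (2 * C))) :=
      tendsto_one_div_add_atTop_nhds_zero_nat.mul_const _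
    rw [zero_mul] at h3
    refine squeeze_zero (fun n => norm_nonneg _) (fun n => ?_) h3
    rw [hTA, norm_smul, Real.norm_of_nonneg (by positivity), one_div]
    refine mul_le_mul_of_nonneg_left ?_ (by positivity)
    have := norm_sub_le (T^[n + 1] v0) v0
    have := hb _ (hit (n + 1))
    have := hb _ hv0
    linarith
  have h4 : WL U (fun n => T (A n)) y := by
    intro φ
    have h5 := (φ.continuous.tendsto 0).comp (h2.mono_left hU)
    rw [map_zero] at h5
    have h6 := (hy φ).add h5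
    rw [add_zero] at h6
    refine h6.congr fun n => ?_
    simp
  exact h1.unique U h4

variable (ρ : G →* (E ≃ᵃⁱ[ℝ] E))

/-- points with orbit in the ball of radius `C` -/
def SC (C : ℝ) : Set E := {v | ∀ g : G, ‖ρ g v‖ ≤ C}

theorem sc_convex (C : ℝ) : Convex ℝ (SC ρ C) := by
  intro u hu v hv a b ha hb hab g
  rw [comb _ hab]
  exact norm_comb ha hb hab (hu g) (hv g)

theorem sc_closed (C : ℝ) : IsClosed (SC ρ C) := by
  have : SC ρ C = ⋂ g : G, {v | ‖ρ g v‖ ≤ C} := by
    ext v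
    simp [SC]
  rw [this]
  exact isClosed_iInter fun g => isClosed_le (ρ g).continuous.norm continuous_const

theorem sc_inv {C : ℝ} {v : E} (hv : v ∈ SC ρ C) (g : G) : ρ g v ∈ SC ρ C := by
  intro h
  rw [← rho_mul]
  exact hv _

theorem fix_convex (T : E ≃ᵃⁱ[ℝ] E) : Convex ℝ {v | T v = v} := by
  intro u hu v hv a b ha hb hab
  change T u = u at hu
  change T v = v at hv
  change T _ = _
  rw [comb _ hab, hu, hv]

theorem fix_closed (T : E ≃ᵃⁱ[ℝ] E) : IsClosed {v | T v = v} :=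
  isClosed_eq T.continuous continuous_id

/-- the set of common fixed points of a set of translations -/
def FA (C : ℝ) (A : Set M) : Set E := {v | v ∈ SC ρ C ∧ ∀ f ∈ A, ρ (tr f) v = v}

theorem fa_convex (C : ℝ) (A : Set M) : Convex ℝ (FA ρ C A) := by
  intro u hu v hv a b ha hb hab
  exact ⟨sc_convex ρ C hu.1 hv.1 ha hb hab, fun f hf =>
    fix_convex _ (hu.2 f hf) (hv.2 f hf) ha hb hab⟩

theorem fa_closed (C : ℝ) (A : Set M) : IsClosed (FA ρ C A) := by
  have : FA ρ C A = SC ρ C ∩ ⋂ f ∈ A, {v | ρ (tr f) v = v} := by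
    ext v
    simp [FA]
  rw [this]
  exact (sc_closed ρ C).inter (isClosed_biInter fun f _ => fix_closed _)

theorem fa_bdd {C : ℝ} {A : Set M} {v : E} (hv : v ∈ FA ρ C A) : ‖v‖ ≤ C := by
  have := hv.1 1
  rwa [rho_one] at this

theorem fa_inv {C : ℝ} {A : Set M} {v : E} (hv : v ∈ FA ρ C A) (f : M) :
    ρ (tr f) v ∈ FA ρ C A := by
  refine ⟨sc_inv ρ hv.1 _, fun g hg => ?_⟩
  rw [← rho_mul, tr_comm, rho_mul, hv.2 g hg]

theorem fa_fin (hE : Function.Surjective (NormedSpace.inclusionInDoubleDual ℝ E)) {C : ℝ}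
    (hC : ∀ g : G, len ρ g ≤ C) (A : Finset M) : (FA ρ C (A : Set M)).Nonempty := by
  classical
  induction A using Finset.induction_on with
  | empty => exact ⟨0, fun g => hC g, by simp⟩
  | insert f A _ ih =>
    obtain ⟨v, hv, hv'⟩ := fix_one hE (ρ (tr f)) (FA ρ C A) (fa_convex ρ C A) (fa_closed ρ C A) C
      (fun v hv => fa_bdd ρ hv) (fun v hv => fa_inv ρ hv f) ih
    refine ⟨v, hv.1, fun g hg => ?_⟩
    rw [Finset.coe_insert] at hg
    rcases hg with rfl | hg
    · exact hv'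
    · exact hv.2 g hg

theorem fa_univ (hE : Function.Surjective (NormedSpace.inclusionInDoubleDual ℝ E)) {C : ℝ}
    (hC : ∀ g : G, len ρ g ≤ C) : (FA ρ C Set.univ).Nonempty := by
  classical
  choose v hv using fa_fin ρ hE hC
  let U : Ultrafilter (Finset M) := Ultrafilter.of atTop
  have hU : (U : Filter (Finset M)) ≤ atTop := Ultrafilter.of_le _
  obtain ⟨y, hy⟩ := exists_wl U hE v C fun A => fa_bdd ρ (hv A)
  refine ⟨y, hy.mem U (sc_convex ρ C) (sc_closed ρ C) (Eventually.of_forall fun A => (hv A).1),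
    fun f _ => ?_⟩
  have h1 : y ∈ {v | ρ (tr f) v = v} := by
    refine hy.mem U (fix_convex (ρ (tr f))) (fix_closed _) ?_
    refine hU ((eventually_ge_atTop {f}).mono fun A hA => ?_)
    exact (hv A).2 f (hA (by simp))
  exact h1

theorem fa_H {C : ℝ} {v : E} (hv : v ∈ FA ρ C Set.univ) {h : G} (hh : h ∈ H) :
    ρ h v ∈ FA ρ C Set.univ := by
  refine ⟨sc_inv ρ hv.1 _, fun f _ => ?_⟩
  have e1 : tr f * h = h * tr (((h⁻¹ : G) : Equiv.Perm M) f) := by
    rw [← H_conj' hh]
    group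
  rw [← rho_mul, e1, rho_mul, hv.2 _ trivial]

theorem range_sum {α β : Type*} (P P' : α → M) (R : β → M) (n : ℕ)
    (hP : ∀ i x y, (∀ k < n, x k = y k) → P i x = P i y)
    (hP' : ∀ i x y, (∀ k < n, x k = y k) → P' i x = P' i y)
    (hR : ∀ j x y, (∀ k, x (n + k) = y (n + k)) → R j x = R j y)
    (h : Set.range (fun (x : K) i => P i x) = Set.range (fun (x : K) i => P' i x)) :
    Set.range (fun (x : K) i => (Sum.elim P R i) x) =
      Set.range (fun (x : K) i => (Sum.elim P' R i) x) := by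
  have key : ∀ (P P' : α → M)
    (hP' : ∀ i x y, (∀ k < n, x k = y k) → P' i x = P' i y)
    (h : Set.range (fun (x : K) i => P i x) = Set.range (fun (x : K) i => P' i x)),
    Set.range (fun (x : K) i => (Sum.elim P R i) x) ⊆
      Set.range (fun (x : K) i => (Sum.elim P' R i) x) := by
    rintro P P' hP' h _ ⟨x, rfl⟩
    have h1 : (fun i => P i x) ∈ Set.range (fun (x : K) i => P' i x) := by
      rw [← h]
      exact ⟨x, rfl⟩
    obtain ⟨y, hy⟩ := h1
    refine ⟨gl n y (fun i => x (n + i)), ?_⟩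
    funext i
    rcases i with i | j
    · simp only [Sum.elim_inl]
      rw [hP' i _ y fun k hk => gl_lt y _ hk]
      exact congrFun hy i
    · simp only [Sum.elim_inr]
      exact hR j _ _ fun k => gl_add n y _ k
  exact Set.Subset.antisymm (key P P' hP' h) (key P' P hP h.symm)

theorem close_convex (T T' : E ≃ᵃⁱ[ℝ] E) (ε : ℝ) : Convex ℝ {u | ‖T u - T' u‖ ≤ ε} := by
  intro u hu v hv a b ha hb hab
  change ‖T _ - T' _‖ ≤ ε
  rw [comb _ hab, comb _ hab]
  have : a • T u + b • T v - (a • T' u + b • T' v) = a • (T u - T' u) + b • (T v - T' v) := by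
    rw [smul_sub, smul_sub]
    abel
  rw [this]
  exact norm_comb ha hb hab hu hv

/-- weak limits along a nonprincipal ultrafilter are close to convex combinations -/
theorem mazur (x : ℕ → E) (y : E) (hy : WL (Filter.hyperfilter ℕ) x y) (N : ℕ) {ε : ℝ}
    (hε : 0 < ε) : ∃ I : Finset ℕ, (∀ i ∈ I, N ≤ i) ∧ ∃ u ∈ convexHull ℝ (x '' (I : Set ℕ)),
      ‖u - y‖ < ε := by
  classical
  have h1 : y ∈ closure (convexHull ℝ (x '' Set.Ici N)) := by
    refine hy.mem _ (convex_convexHull ℝ _).closure isClosed_closure ?_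
    refine Nat.hyperfilter_le_atTop ((eventually_ge_atTop N).mono fun n hn => ?_)
    exact subset_closure (subset_convexHull ℝ _ ⟨n, hn, rfl⟩)
  rw [Metric.mem_closure_iff] at h1
  obtain ⟨u, hu, hu'⟩ := h1 ε hε
  rw [convexHull_eq_union_convexHull_finite_subsets] at hu
  simp only [Set.mem_iUnion] at hu
  obtain ⟨t, ht, hut⟩ := hu
  obtain ⟨I, hI, rfl⟩ := Finset.subset_set_image_iff.1 ht
  refine ⟨I, fun i hi => hI hi, u, ?_, ?_⟩
  · rwa [Finset.coe_image] at hut
  · rwa [dist_comm, dist_eq_norm] at hu'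

theorem exists_dep {α : Type*} [Finite α] (P : α → M) :
    ∃ n, ∀ m, n ≤ m → ∀ i x y, (∀ k < m, x k = y k) → P i x = P i y := by
  cases nonempty_fintype α
  choose n hn using fun i => fin_dep (P i) (P i).isLocallyConstant
  refine ⟨Finset.univ.sup n, fun m hm i x y h => hn i x y fun j hj => h j ?_⟩
  exact lt_of_lt_of_le hj ((Finset.le_sup (Finset.mem_univ i)).trans hm)

/-- every affine isometric action with bounded orbits has a fixed point -/
theorem exists_fix (hE : Function.Surjective (NormedSpace.inclusionInDoubleDual ℝ E))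
    (hρ : ∀ v : E, Continuous (fun g : G => ρ g v)) :
    ∃ v : E, ∀ g : G, ρ g v = v := by
  classical
  obtain ⟨C, hC⟩ := bdd_G ρ hE hρ
  obtain ⟨x, hx⟩ := fa_univ ρ hE hC
  choose w hw' using exists_swap
  let s : ℕ → G := fun N => hw (w N)
  have hs : ∀ N, s N ∈ H := fun N => hw_mem _
  have hsF : ∀ N, ρ (s N) x ∈ FA ρ C Set.univ := fun N => fa_H ρ hx (hs N)
  obtain ⟨y, hy⟩ := exists_wl (Filter.hyperfilter ℕ) hE (fun N => ρ (s N) x) C
    fun N => fa_bdd ρ (hsF N)
  have hyF : y ∈ FA ρ C Set.univ := hy.mem _ (fa_convex ρ C _) (fa_closed ρ C _)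
    (Eventually.of_forall hsF)
  have key : ∀ h ∈ H, ρ h y = y := by
    intro h hh
    have hle : ∀ ε : ℝ, 0 < ε → ‖ρ h y - y‖ ≤ 6 * ε := by
      intro ε hε
      -- a neighbourhood of the identity moving `x` by less than `ε`
      have h1 : {g : G | ‖ρ g x - x‖ < ε} ∈ 𝓝 (1 : G) := by
        have hc : Continuous (fun g : G => ‖ρ g x - x‖) := ((hρ x).sub continuous_const).norm
        have : ‖ρ 1 x - x‖ < ε := by rw [rho_one]; simpa using hε
        exact hc.continuousAt.eventually (gt_mem_nhds this)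
      obtain ⟨A, hA⟩ := exists_stab_subset G h1
      obtain ⟨n0, hn0⟩ := exists_dep (fun a : A => a.1)
      obtain ⟨I, hI, u, hu, huy⟩ := mazur _ y hy n0 hε
      obtain ⟨n1, hn1⟩ := exists_dep (fun p : I × A => ((s p.1.1 : G) : Equiv.Perm M) p.2.1)
      obtain ⟨n2, hn2⟩ := exists_dep (fun p : I × A =>
        (h : Equiv.Perm M) (((s p.1.1 : G) : Equiv.Perm M) p.2.1))
      obtain ⟨J, hJ, v, hv, hvy⟩ := mazur _ y hy (n0 + n1 + n2) hε
      have hr1 : Set.range (fun (x : K) (p : I × A) =>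
          ((s p.1.1 : G) : Equiv.Perm M) p.2.1 x) = Set.range (fun (x : K) (p : I × A) =>
          (h : Equiv.Perm M) (((s p.1.1 : G) : Equiv.Perm M) p.2.1) x) :=
        (H_range (fun p : I × A => ((s p.1.1 : G) : Equiv.Perm M) p.2.1) hh).symm
      have hr2 := range_sum (fun p : I × A => ((s p.1.1 : G) : Equiv.Perm M) p.2.1)
        (fun p : I × A => (h : Equiv.Perm M) (((s p.1.1 : G) : Equiv.Perm M) p.2.1))
        (fun p : J × A => ((s p.1.1 : G) : Equiv.Perm M) p.2.1) (n0 + n1 + n2)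
        (hn1 _ (by omega)) (hn2 _ (by omega)) (by
          rintro ⟨⟨j, hj⟩, a⟩ x y hxy
          have hj' := hJ j hj
          change (a : M) (w j x) = (a : M) (w j y)
          refine hn0 n0 le_rfl a _ _ fun k hk => ?_
          rw [hw' j x k (by omega), hw' j y k (by omega)]
          have := hxy (k + j - (n0 + n1 + n2))
          rwa [Nat.add_sub_cancel' (by omega)] at this) hr1
      obtain ⟨z, hz⟩ := exists_hom _ _ hr2
      have hz1 : ∀ i ∈ I, ∀ a ∈ A, ((hw z : G) : Equiv.Perm M) (((s i : G) : Equiv.Perm M) a) =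
          (h : Equiv.Perm M) (((s i : G) : Equiv.Perm M) a) := fun i hi a ha =>
        hz (Sum.inl (⟨i, hi⟩, ⟨a, ha⟩))
      have hz2 : ∀ j ∈ J, ∀ a ∈ A, ((hw z : G) : Equiv.Perm M) (((s j : G) : Equiv.Perm M) a) =
          ((s j : G) : Equiv.Perm M) a := fun j hj a ha =>
        hz (Sum.inr (⟨j, hj⟩, ⟨a, ha⟩))
      have c1 : ∀ k g : G, (∀ a ∈ A, (k : Equiv.Perm M) a = (g : Equiv.Perm M) a) →
          ‖ρ k x - ρ g x‖ ≤ ε := by
        intro k g hkg
        have hm : g⁻¹ * k ∈ stab G A := by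
          intro a ha
          change (g : Equiv.Perm M)⁻¹ ((k : Equiv.Perm M) a) = a
          rw [hkg a ha]
          simp
        have h2 : ‖ρ (g⁻¹ * k) x - x‖ < ε := hA hm
        rw [rho_mul, ← rho_dist ρ g, rho_inv'] at h2
        exact h2.le
      have c2 : ‖ρ h u - ρ (hw z) u‖ ≤ ε := by
        have h2 : convexHull ℝ ((fun N => ρ (s N) x) '' (I : Set ℕ)) ⊆
            {u | ‖ρ h u - ρ (hw z) u‖ ≤ ε} := by
          refine convexHull_min ?_ (close_convex _ _ _)
          rintro _ ⟨i, hi, rfl⟩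
          change ‖ρ h (ρ (s i) x) - ρ (hw z) (ρ (s i) x)‖ ≤ ε
          rw [← rho_mul, ← rho_mul]
          exact c1 _ _ fun a ha => (hz1 i hi a ha).symm
        exact h2 hu
      have c3 : ‖ρ (hw z) v - v‖ ≤ ε := by
        have h2 : convexHull ℝ ((fun N => ρ (s N) x) '' (J : Set ℕ)) ⊆
            {u | ‖ρ (hw z) u - ρ 1 u‖ ≤ ε} := by
          refine convexHull_min ?_ (close_convex _ _ _)
          rintro _ ⟨j, hj, rfl⟩
          change ‖ρ (hw z) (ρ (s j) x) - ρ 1 (ρ (s j) x)‖ ≤ ε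
          rw [← rho_mul, ← rho_mul, one_mul]
          exact c1 _ _ fun a ha => hz2 j hj a ha
        have h3 := h2 hv
        change ‖ρ (hw z) v - ρ 1 v‖ ≤ ε at h3
        rwa [rho_one] at h3
      have c4 : ‖ρ h y - ρ h u‖ ≤ ε := by
        rw [rho_dist, norm_sub_rev]
        exact huy.le
      have c5 : ‖ρ (hw z) u - ρ (hw z) v‖ ≤ 2 * ε := by
        rw [rho_dist]
        have e1 : u - v = (u - y) - (v - y) := by abel
        have := norm_sub_le (u - y) (v - y)
        rw [e1]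
        linarith
      have e2 : ρ h y - y = (ρ h y - ρ h u) + (ρ h u - ρ (hw z) u) +
          (ρ (hw z) u - ρ (hw z) v) + (ρ (hw z) v - v) + (v - y) := by abel
      rw [e2]
      have n1 := norm_add_le ((ρ h y - ρ h u) + (ρ h u - ρ (hw z) u) +
          (ρ (hw z) u - ρ (hw z) v) + (ρ (hw z) v - v)) (v - y)
      have n2 := norm_add_le ((ρ h y - ρ h u) + (ρ h u - ρ (hw z) u) +
          (ρ (hw z) u - ρ (hw z) v)) (ρ (hw z) v - v)
      have n3 := norm_add_le ((ρ h y - ρ h u) + (ρ h u - ρ (hw z) u))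
          (ρ (hw z) u - ρ (hw z) v)
      have n4 := norm_add_le (ρ h y - ρ h u) (ρ h u - ρ (hw z) u)
      linarith
    have h0 : ‖ρ h y - y‖ ≤ 0 := by
      refine le_of_forall_pos_le_add fun ε hε => ?_
      have := hle (ε / 6) (by positivity)
      linarith
    exact sub_eq_zero.1 (norm_le_zero_iff.1 h0)
  refine ⟨y, fun g => ?_⟩
  obtain ⟨f, h, hh, rfl⟩ := decomp g
  rw [rho_mul, key h hh, hyF.2 f trivial]

end Pool.Agent.W5h53.OB
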