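import Mathlib
import Pool.Agent.W5h53.OB.Grp

set_option autoImplicit false

open Filter Topology

namespace Pool.Agent.W5h53.OB

/-- a copy of `M` carrying the supremum metric -/
def MX : Type := M

/-- the inclusion in the space of continuous real functions -/
noncomputable def inc (f : MX) : C(K, ℝ) :=
  ⟨fun x => ((show M from f) x : ℝ), by
    have h1 : Continuous (fun x => (show M from f) x) :=
      (show M from f).isLocallyConstant.continuous
    exact (continuous_of_discreteTopology (f := fun n : ℤ => (n : ℝ))).comp h1⟩

theorem inc_apply (f : M) (x : K) : inc f x = (f x : ℝ) := rfl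

theorem inc_injective : Function.Injective inc := by
  intro f g h
  change (show M from f) = (show M from g)
  ext x
  have := congrArg (fun φ : C(K, ℝ) => φ x) h
  have h1 : (((show M from f) x : ℤ) : ℝ) = (((show M from g) x : ℤ) : ℝ) := this
  exact_mod_cast h1

noncomputable instance : MetricSpace MX := MetricSpace.induced inc inc_injective inferInstance

theorem dist_def (f g : MX) : dist f g = dist (inc f) (inc g) := rfl

theorem dist_le' (g : G) (a b : M) :
    dist (show MX from (g : Equiv.Perm M) a) (show MX from (g : Equiv.Perm M) b) ≤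
      dist (show MX from a) (show MX from b) := by
  classical
  rw [dist_def, ContinuousMap.dist_le dist_nonneg]
  intro y
  obtain ⟨x, hx⟩ := (g.2 {a, b}).2 y
  have h1 := hx a (by simp) b (by simp)
  have h2 := ContinuousMap.dist_apply_le_dist (f := inc a) (g := inc b) x
  rw [Real.dist_eq, inc_apply, inc_apply] at h2 ⊢
  rw [← Int.cast_sub, h1, Int.cast_sub]
  exact h2

theorem dist_eq' (g : G) (a b : M) :
    dist (show MX from (g : Equiv.Perm M) a) (show MX from (g : Equiv.Perm M) b) =
      dist (show MX from a) (show MX from b) := by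
  refine le_antisymm (dist_le' g a b) ?_
  have := dist_le' g⁻¹ ((g : Equiv.Perm M) a) ((g : Equiv.Perm M) b)
  have e1 : ∀ c : M, ((g⁻¹ : G) : Equiv.Perm M) ((g : Equiv.Perm M) c) = c := fun c => by
    change (g : Equiv.Perm M)⁻¹ ((g : Equiv.Perm M) c) = c
    simp
  rwa [e1, e1] at this

/-- the isometric action on `MX` -/
noncomputable def act : G →* (MX ≃ᵢ MX) where
  toFun g := ⟨(g : Equiv.Perm M), Isometry.of_dist_eq fun a b => dist_eq' g a b⟩
  map_one' := by ext; rfl
  map_mul' _ _ := by ext; rfl

theorem act_cont (a : MX) : Continuous fun g : G => act g a := by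
  have hi : Topology.IsInducing (emb G) := ⟨rfl⟩
  have hc : Continuous (emb G) := hi.continuous
  have h1 : Continuous fun g : G => (g : Equiv.Perm M) (show M from a) :=
    (continuous_apply (show M from a)).comp (continuous_fst.comp hc)
  have h2 : Continuous (fun f : M => (show MX from f)) := continuous_of_discreteTopology
  exact h2.comp h1

theorem act_unb : ¬ Bornology.IsBounded (Set.range fun g : G => act g (show MX from (0 : M))) := by
  intro h
  obtain ⟨C, hC⟩ := (Metric.isBounded_iff.1 h)
  obtain ⟨n, hn⟩ := exists_nat_gt C
  have h1 := hC (x := act (tr (LocallyConstant.const K (n : ℤ))) (show MX from (0 : M))) ⟨_, rfl⟩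
    (y := act 1 (show MX from (0 : M))) ⟨_, rfl⟩
  have h2 := ContinuousMap.dist_apply_le_dist
    (f := inc (act (tr (LocallyConstant.const K (n : ℤ))) (show MX from (0 : M))))
    (g := inc (act 1 (show MX from (0 : M)))) (fun _ => true)
  rw [dist_def] at h1
  have h3 : inc (act (tr (LocallyConstant.const K (n : ℤ))) (show MX from (0 : M)))
      (fun _ => true) = (n : ℝ) := by
    change (((LocallyConstant.const K (n : ℤ) + 0 : M) (fun _ => true) : ℤ) : ℝ) = n
    rw [add_zero]
    simp
  have h4 : inc (act 1 (show MX from (0 : M))) (fun _ => true) = 0 := by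
    change (((0 : M) (fun _ => true) : ℤ) : ℝ) = 0
    simp
  rw [h3, h4, Real.dist_eq, sub_zero] at h2
  have := le_abs_self (n : ℝ)
  linarith

end Pool.Agent.W5h53.OB
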